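import Pool.Agent.Lib.MP_51ebc3_al.Defs

set_option autoImplicit false

/-!
# A central extension of the general linear group detecting elements of `K₂`
-/

open scoped commutatorElement

namespace Pool.Agent.Lib.MP_51ebc3_al

/-- Two ring homomorphisms `ι, φ : R → T` with square-zero difference, and an `ι`-derivation. -/
structure Datum (R T : Type*) [CommRing R] [CommRing T] where
  /-- first homomorphism -/
  ι : R →+* T
  /-- second homomorphism -/
  φ : R →+* T
  /-- derivation along `ι` -/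
  E : R →+ T
  leib : ∀ a b, E (a * b) = ι a * E b + ι b * E a
  sq : ∀ a b, (φ a - ι a) * (φ b - ι b) = 0

namespace Datum

variable {R T : Type*} [CommRing R] [CommRing T] (D : Datum R T)

lemma E_one : D.E 1 = 0 := by
  have h := D.leib 1 1
  rw [mul_one, map_one D.ι, one_mul] at h
  exact left_eq_add.mp h

section matrix

set_option linter.unusedSectionVars false

variable {n : Type*} [Fintype n] [DecidableEq n]

/-- `ι` on matrices -/
def ιM (g : Matrix n n R) : Matrix n n T := g.map D.ι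
/-- `φ` on matrices -/
def φM (g : Matrix n n R) : Matrix n n T := g.map D.φ
/-- `E` on matrices -/
def EM (g : Matrix n n R) : Matrix n n T := g.map D.E

lemma ιM_mul (g h : Matrix n n R) : D.ιM (g * h) = D.ιM g * D.ιM h := by
  simp [ιM]

lemma φM_mul (g h : Matrix n n R) : D.φM (g * h) = D.φM g * D.φM h := by
  simp [φM]

lemma ιM_one : D.ιM (1 : Matrix n n R) = 1 := by simp [ιM]

lemma φM_one : D.φM (1 : Matrix n n R) = 1 := by simp [φM]

lemma EM_one : D.EM (1 : Matrix n n R) = 0 := by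
  ext i j
  by_cases h : i = j
  · subst h; simp [EM, E_one]
  · simp [EM, Matrix.one_apply_ne h]

lemma EM_mul (g h : Matrix n n R) : D.EM (g * h) = D.EM g * D.ιM h + D.ιM g * D.EM h := by
  ext i j
  simp only [EM, ιM, Matrix.map_apply, Matrix.mul_apply, Matrix.add_apply, map_sum, D.leib,
    Finset.sum_add_distrib]
  rw [add_comm]
  congr 1
  exact Finset.sum_congr rfl fun k _ => mul_comm _ _

lemma sqM (g h : Matrix n n R) : (D.φM g - D.ιM g) * (D.φM h - D.ιM h) = 0 := by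
  ext i j
  simp only [φM, ιM, Matrix.mul_apply, Matrix.sub_apply, Matrix.map_apply, D.sq,
    Finset.sum_const_zero, Matrix.zero_apply]

/-- The logarithmic part `φ(h) ι(h)⁻¹ - 1`. -/
def U (h : (Matrix n n R)ˣ) : Matrix n n T := D.φM h.val * D.ιM (h⁻¹).val - 1

lemma ιM_inv_mul (g : (Matrix n n R)ˣ) : D.ιM (g⁻¹).val * D.ιM g.val = 1 := by
  rw [← ιM_mul, ← Units.val_mul, inv_mul_cancel, Units.val_one, ιM_one]

lemma ιM_mul_inv (g : (Matrix n n R)ˣ) : D.ιM g.val * D.ιM (g⁻¹).val = 1 := by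
  rw [← ιM_mul, ← Units.val_mul, mul_inv_cancel, Units.val_one, ιM_one]

lemma U_eq (h : (Matrix n n R)ˣ) : D.U h = (D.φM h.val - D.ιM h.val) * D.ιM (h⁻¹).val := by
  rw [U, sub_mul, ιM_mul_inv]

lemma U_one : D.U (1 : (Matrix n n R)ˣ) = 0 := by
  rw [U_eq]
  simp [φM_one, ιM_one]

lemma U_mul (h k : (Matrix n n R)ˣ) :
    D.U (h * k) = D.U h + D.ιM h.val * D.U k * D.ιM (h⁻¹).val := by
  have e1 : D.φM h.val * D.U k = D.ιM h.val * D.U k := by
    rw [← sub_eq_zero, ← sub_mul, U_eq, ← mul_assoc, sqM, zero_mul]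
  have e2 : D.U (h * k) = D.U h + D.φM h.val * D.U k * D.ιM (h⁻¹).val := by
    have e3 : D.φM k.val * D.ιM (k⁻¹).val = 1 + D.U k := by rw [U]; abel
    have e4 : D.U h = D.φM h.val * D.ιM (h⁻¹).val - 1 := rfl
    rw [e4, U, mul_inv_rev, Units.val_mul, Units.val_mul, φM_mul, ιM_mul]
    have e5 : D.φM h.val * D.φM k.val * (D.ιM (k⁻¹).val * D.ιM (h⁻¹).val) =
        D.φM h.val * (D.φM k.val * D.ιM (k⁻¹).val) * D.ιM (h⁻¹).val := by
      simp only [mul_assoc]
    rw [e5, e3]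
    simp only [mul_add, add_mul, mul_one]
    abel
  rw [e2, e1]

/-- The two-cocycle `Tr(ι(g)⁻¹ E(g) (φ(h) ι(h)⁻¹ - 1))`. -/
def coc (g h : (Matrix n n R)ˣ) : T := (D.ιM (g⁻¹).val * D.EM g.val * D.U h).trace

lemma coc_one_left (h : (Matrix n n R)ˣ) : D.coc 1 h = 0 := by
  rw [coc, Units.val_one, EM_one, mul_zero, zero_mul, Matrix.trace_zero]

lemma coc_one_right (g : (Matrix n n R)ˣ) : D.coc g 1 = 0 := by
  rw [coc, U_one, mul_zero, Matrix.trace_zero]

lemma coc_assoc (g h k : (Matrix n n R)ˣ) :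
    D.coc g h + D.coc (g * h) k = D.coc h k + D.coc g (h * k) := by
  have e1 : D.coc (g * h) k =
      (D.ιM (h⁻¹).val * (D.ιM (g⁻¹).val * D.EM g.val) * D.ιM h.val * D.U k).trace +
        D.coc h k := by
    rw [coc, coc, ← Matrix.trace_add]
    congr 1
    rw [mul_inv_rev, Units.val_mul, Units.val_mul, ιM_mul, EM_mul, mul_add, add_mul]
    congr 1
    · simp only [mul_assoc]
    · have : D.ιM (h⁻¹).val * D.ιM (g⁻¹).val * (D.ιM g.val * D.EM h.val) =
          D.ιM (h⁻¹).val * (D.ιM (g⁻¹).val * D.ιM g.val) * D.EM h.val := by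
        simp only [mul_assoc]
      rw [this, ιM_inv_mul, mul_one]
  have e2 : D.coc g (h * k) = D.coc g h +
      (D.ιM (g⁻¹).val * D.EM g.val * (D.ιM h.val * D.U k * D.ιM (h⁻¹).val)).trace := by
    rw [coc, coc, ← Matrix.trace_add, U_mul, mul_add]
  have e3 : (D.ιM (g⁻¹).val * D.EM g.val * (D.ιM h.val * D.U k * D.ιM (h⁻¹).val)).trace =
      (D.ιM (h⁻¹).val * (D.ιM (g⁻¹).val * D.EM g.val) * D.ιM h.val * D.U k).trace := by
    rw [← mul_assoc, Matrix.trace_mul_comm]
    simp only [mul_assoc]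
  rw [e1, e2, e3]
  abel

end matrix

/-- The central extension of the general linear group of size `n` defined by the cocycle. -/
@[ext]
structure Ext (D : Datum R T) (n : ℕ) where
  /-- the matrix -/
  g : (Matrix (Fin n) (Fin n) R)ˣ
  /-- the central part -/
  t : T

variable {n : ℕ}

instance : One (D.Ext n) := ⟨⟨1, 0⟩⟩
instance : Mul (D.Ext n) := ⟨fun p q => ⟨p.g * q.g, p.t + q.t + D.coc p.g q.g⟩⟩
instance : Inv (D.Ext n) := ⟨fun p => ⟨p.g⁻¹, -p.t - D.coc p.g⁻¹ p.g⟩⟩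

@[simp] lemma Ext.one_g : (1 : D.Ext n).g = 1 := rfl
@[simp] lemma Ext.one_t : (1 : D.Ext n).t = 0 := rfl
@[simp] lemma Ext.mul_g (p q : D.Ext n) : (p * q).g = p.g * q.g := rfl
@[simp] lemma Ext.mul_t (p q : D.Ext n) : (p * q).t = p.t + q.t + D.coc p.g q.g := rfl
@[simp] lemma Ext.inv_g (p : D.Ext n) : (p⁻¹).g = p.g⁻¹ := rfl
@[simp] lemma Ext.inv_t (p : D.Ext n) : (p⁻¹).t = -p.t - D.coc p.g⁻¹ p.g := rfl

instance : Group (D.Ext n) where
  mul_assoc p q r := by
    ext1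
    · exact mul_assoc _ _ _
    · simp only [Ext.mul_t, Ext.mul_g]
      linear_combination D.coc_assoc p.g q.g r.g
  one_mul p := by
    ext1
    · exact one_mul _
    · simp [coc_one_left]
  mul_one p := by
    ext1
    · exact mul_one _
    · simp [coc_one_right]
  inv_mul_cancel p := by
    ext1
    · exact inv_mul_cancel _
    · simp only [Ext.mul_t, Ext.inv_t, Ext.inv_g, Ext.one_t]
      ring

/-- The matrix unit with entry `a` at position `(i, j)` (zero if out of range). -/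
def Em {A : Type*} [CommRing A] (n : ℕ) (i j : ℕ) (a : A) : Matrix (Fin n) (Fin n) A :=
  fun r s => if (r : ℕ) = i ∧ (s : ℕ) = j then a else 0

section Em

variable {A : Type*} [CommRing A]

lemma Em_mul_ne (i j k l : ℕ) (h : j ≠ k) (a b : A) : Em n i j a * Em n k l b = 0 := by
  ext r s
  rw [Matrix.mul_apply, Matrix.zero_apply]
  refine Finset.sum_eq_zero fun t _ => ?_
  by_cases h1 : (t : ℕ) = j
  · have : (t : ℕ) ≠ k := by rw [h1]; exact h
    simp [Em, this]
  · simp [Em, h1]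

lemma Em_mul (i j k : ℕ) (hj : j < n) (a b : A) : Em n i j a * Em n j k b = Em n i k (a * b) := by
  ext r s
  rw [Matrix.mul_apply, Finset.sum_eq_single (⟨j, hj⟩ : Fin n)]
  · simp only [Em]
    by_cases hr : (r : ℕ) = i <;> by_cases hs : (s : ℕ) = k <;> simp [hr, hs]
  · intro t _ ht
    have : (t : ℕ) ≠ j := fun h => ht (Fin.ext h)
    simp [Em, this]
  · intro h; exact absurd (Finset.mem_univ _) h

lemma Em_add (i j : ℕ) (a b : A) : Em n i j (a + b) = Em n i j a + Em n i j b := by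
  ext r s
  simp only [Em, Matrix.add_apply]
  split_ifs <;> simp

lemma Em_neg (i j : ℕ) (a : A) : Em n i j (-a) = -Em n i j a := by
  ext r s
  simp only [Em, Matrix.neg_apply]
  split_ifs <;> simp

lemma Em_zero (i j : ℕ) : Em n i j (0 : A) = 0 := by
  ext r s
  simp [Em]

lemma trace_Em_ne (i j : ℕ) (h : i ≠ j) (a : A) : (Em n i j a).trace = 0 := by
  refine Finset.sum_eq_zero fun t _ => ?_
  have : ¬ ((t : ℕ) = i ∧ (t : ℕ) = j) := fun h' => h (h'.1.symm.trans h'.2)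
  simp [Matrix.diag, Em, this]

lemma trace_Em (i : ℕ) (h : i < n) (a : A) : (Em n i i a).trace = a := by
  rw [Matrix.trace, Finset.sum_eq_single (⟨i, h⟩ : Fin n)]
  · simp [Em]
  · intro t _ ht
    have : (t : ℕ) ≠ i := fun h => ht (Fin.ext h)
    simp [Em, this]
  · intro h; exact absurd (Finset.mem_univ _) h

lemma Em_map {B : Type*} [CommRing B] (f : A → B) (hf : f 0 = 0) (i j : ℕ) (a : A) :
    (Em n i j a).map f = Em n i j (f a) := by
  ext r s
  simp only [Em, Matrix.map_apply]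
  split_ifs
  · rfl
  · exact hf

end Em

/-- The elementary matrix `1 + a E_{ij}`. -/
def el (n i j : ℕ) (h : i ≠ j) (a : R) : (Matrix (Fin n) (Fin n) R)ˣ where
  val := 1 + Em n i j a
  inv := 1 - Em n i j a
  val_inv := by
    simp only [mul_sub, add_mul, mul_one, one_mul, Em_mul_ne i j i j h.symm]
    abel
  inv_val := by
    simp only [mul_add, sub_mul, mul_one, one_mul, Em_mul_ne i j i j h.symm]
    abel

lemma el_val (i j : ℕ) (h : i ≠ j) (a : R) : (el n i j h a).val = 1 + Em n i j a := rfl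
lemma el_inv_val (i j : ℕ) (h : i ≠ j) (a : R) : ((el n i j h a)⁻¹).val = 1 - Em n i j a := rfl

lemma ιM_add (g h : Matrix (Fin n) (Fin n) R) : D.ιM (g + h) = D.ιM g + D.ιM h := by
  ext; simp [ιM]
lemma ιM_sub (g h : Matrix (Fin n) (Fin n) R) : D.ιM (g - h) = D.ιM g - D.ιM h := by
  ext; simp [ιM]
lemma φM_add (g h : Matrix (Fin n) (Fin n) R) : D.φM (g + h) = D.φM g + D.φM h := by
  ext; simp [φM]
lemma EM_add (g h : Matrix (Fin n) (Fin n) R) : D.EM (g + h) = D.EM g + D.EM h := by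
  ext; simp [EM]
lemma EM_sub (g h : Matrix (Fin n) (Fin n) R) : D.EM (g - h) = D.EM g - D.EM h := by
  ext; simp [EM]
lemma φM_sub (g h : Matrix (Fin n) (Fin n) R) : D.φM (g - h) = D.φM g - D.φM h := by
  ext; simp [φM]

lemma ιM_Em (i j : ℕ) (a : R) : D.ιM (Em n i j a) = Em n i j (D.ι a) := Em_map _ (map_zero _) _ _ _
lemma φM_Em (i j : ℕ) (a : R) : D.φM (Em n i j a) = Em n i j (D.φ a) := Em_map _ (map_zero _) _ _ _
lemma EM_Em (i j : ℕ) (a : R) : D.EM (Em n i j a) = Em n i j (D.E a) := Em_map _ (map_zero _) _ _ _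

/-- the left logarithmic derivative `ι(g)⁻¹ E(g)` -/
def L (g : (Matrix (Fin n) (Fin n) R)ˣ) : Matrix (Fin n) (Fin n) T :=
  D.ιM (g⁻¹).val * D.EM g.val

lemma coc_eq (g h : (Matrix (Fin n) (Fin n) R)ˣ) : D.coc g h = (D.L g * D.U h).trace := rfl

lemma L_mul (g h : (Matrix (Fin n) (Fin n) R)ˣ) :
    D.L (g * h) = D.ιM (h⁻¹).val * D.L g * D.ιM h.val + D.L h := by
  rw [L, L, L, mul_inv_rev, Units.val_mul, Units.val_mul, ιM_mul, EM_mul, mul_add]
  congr 1
  · simp only [mul_assoc]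
  · have : D.ιM (h⁻¹).val * D.ιM (g⁻¹).val * (D.ιM g.val * D.EM h.val) =
        D.ιM (h⁻¹).val * (D.ιM (g⁻¹).val * D.ιM g.val) * D.EM h.val := by
      simp only [mul_assoc]
    rw [this, ιM_inv_mul, mul_one]

lemma L_el (i j : ℕ) (h : i ≠ j) (a : R) : D.L (el n i j h a) = Em n i j (D.E a) := by
  rw [L, el_val, el_inv_val, ιM_sub, ιM_one, EM_add, EM_one, zero_add, ιM_Em, EM_Em, sub_mul,
    one_mul, Em_mul_ne i j i j h.symm, sub_zero]

lemma U_el (i j : ℕ) (h : i ≠ j) (a : R) :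
    D.U (el n i j h a) = Em n i j (D.φ a - D.ι a) := by
  rw [U, el_val, el_inv_val, ιM_sub, ιM_one, φM_add, φM_one, ιM_Em, φM_Em, mul_sub, mul_one,
    add_mul, one_mul, Em_mul_ne i j i j h.symm, sub_eq_add_neg (D.φ a), Em_add, Em_neg]
  abel

/-- The lift of the elementary matrix to the central extension. -/
def lel (D : Datum R T) (n : ℕ) (g : Gen R) : D.Ext n := ⟨el n g.i g.j g.ne g.a, 0⟩

lemma lel_add (i j : ℕ) (h : i ≠ j) (a b : R) :
    D.lel n ⟨i, j, h, a⟩ * D.lel n ⟨i, j, h, b⟩ = D.lel n ⟨i, j, h, a + b⟩ := by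
  ext1
  · ext1
    simp only [lel, Ext.mul_g, Units.val_mul, el_val, mul_add, add_mul, mul_one, one_mul,
      Em_mul_ne i j i j h.symm, Em_add]
    abel
  · simp only [lel, Ext.mul_t, coc_eq, L_el, U_el, Em_mul_ne i j i j h.symm, Matrix.trace_zero,
      add_zero]

lemma lel_comm (i j k l : ℕ) (hij : i ≠ j) (hkl : k ≠ l) (hjk : j ≠ k) (hil : i ≠ l) (a b : R) :
    D.lel n ⟨i, j, hij, a⟩ * D.lel n ⟨k, l, hkl, b⟩ =
      D.lel n ⟨k, l, hkl, b⟩ * D.lel n ⟨i, j, hij, a⟩ := by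
  ext1
  · ext1
    simp only [lel, Ext.mul_g, Units.val_mul, el_val, mul_add, add_mul, mul_one, one_mul,
      Em_mul_ne i j k l hjk, Em_mul_ne k l i j hil.symm]
    abel
  · simp only [lel, Ext.mul_t, coc_eq, L_el, U_el, Em_mul_ne i j k l hjk,
      Em_mul_ne k l i j hil.symm, Matrix.trace_zero, add_zero]

lemma lel_prod (i j k : ℕ) (hij : i ≠ j) (hjk : j ≠ k) (hik : i ≠ k) (hj : j < n) (a b : R) :
    D.lel n ⟨i, j, hij, a⟩ * D.lel n ⟨j, k, hjk, b⟩ =
      D.lel n ⟨i, k, hik, a * b⟩ * D.lel n ⟨j, k, hjk, b⟩ * D.lel n ⟨i, j, hij, a⟩ := by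
  ext1
  · ext1
    simp only [lel, Ext.mul_g, Units.val_mul, el_val, mul_add, add_mul, mul_one, one_mul,
      Em_mul i j k hj, Em_mul_ne i k j k hjk.symm, Em_mul_ne i k i j hik.symm,
      Em_mul_ne j k i j hik.symm, zero_mul]
    abel
  · simp only [lel, Ext.mul_t, Ext.mul_g, coc_eq, L_mul, L_el, U_el, el_val, el_inv_val, ιM_add,
      ιM_sub, ιM_one, ιM_Em, Em_mul i j k hj, mul_add, add_mul, mul_one, one_mul, sub_mul,
      Em_mul_ne i k j k hjk.symm, Em_mul_ne i k i j hik.symm, Em_mul_ne j k i k hik.symm,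
      Em_mul_ne j k i j hik.symm, trace_Em_ne i k hik, Matrix.trace_zero, add_zero, sub_zero]

/-- Sequences that are eventually trivial. -/
def evTriv (D : Datum R T) : Subgroup (∀ n, D.Ext n) where
  carrier := {f | ∃ n₀, ∀ n, n₀ ≤ n → f n = 1}
  one_mem' := ⟨0, fun _ _ => rfl⟩
  mul_mem' := by
    rintro f g ⟨n₁, h₁⟩ ⟨n₂, h₂⟩
    refine ⟨max n₁ n₂, fun n hn => ?_⟩
    rw [Pi.mul_apply, h₁ n (le_trans (le_max_left _ _) hn), h₂ n (le_trans (le_max_right _ _) hn),
      one_mul]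
  inv_mem' := by
    rintro f ⟨n₁, h₁⟩
    refine ⟨n₁, fun n hn => ?_⟩
    rw [Pi.inv_apply, h₁ n hn, inv_one]

lemma mem_evTriv (f : ∀ n, D.Ext n) : f ∈ D.evTriv ↔ ∃ n₀, ∀ n, n₀ ≤ n → f n = 1 := Iff.rfl

instance : (D.evTriv).Normal where
  conj_mem := by
    rintro f ⟨n₁, h₁⟩ g
    refine ⟨n₁, fun n hn => ?_⟩
    rw [Pi.mul_apply, Pi.mul_apply, h₁ n hn, mul_one, Pi.inv_apply, mul_inv_cancel]

/-- The group of germs at infinity of the extensions. -/
abbrev Germ (D : Datum R T) : Type _ := (∀ n, D.Ext n) ⧸ D.evTriv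

lemma germ_eq {f g : ∀ n, D.Ext n} (n₀ : ℕ) (h : ∀ n, n₀ ≤ n → f n = g n) :
    (QuotientGroup.mk f : D.Germ) = QuotientGroup.mk g := by
  rw [QuotientGroup.eq, mem_evTriv]
  refine ⟨n₀, fun n hn => ?_⟩
  rw [Pi.mul_apply, Pi.inv_apply, h n hn, inv_mul_cancel]

/-- The homomorphism from the Steinberg group to the group of germs. -/
noncomputable def toGerm (D : Datum R T) : St R →* D.Germ :=
  St.lift (fun g => QuotientGroup.mk fun n => D.lel n g) (by
    intro w hw
    cases hw with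
    | add i j h a b =>
      simp only [map_mul, FreeGroup.lift_apply_of, map_inv]
      rw [mul_inv_eq_one, ← QuotientGroup.mk_mul]
      exact D.germ_eq 0 fun n _ => D.lel_add i j h a b
    | comm i j k l hij hkl hjk hil a b =>
      rw [map_commutatorElement]
      simp only [FreeGroup.lift_apply_of]
      rw [commutatorElement_eq_one_iff_mul_comm, ← QuotientGroup.mk_mul, ← QuotientGroup.mk_mul]
      exact D.germ_eq 0 fun n _ => D.lel_comm i j k l hij hkl hjk hil a b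
    | prod i j k hij hjk hik a b =>
      rw [map_mul, map_commutatorElement]
      simp only [FreeGroup.lift_apply_of, map_inv]
      rw [mul_inv_eq_one, commutatorElement_def, mul_inv_eq_iff_eq_mul, mul_inv_eq_iff_eq_mul,
        ← QuotientGroup.mk_mul, ← QuotientGroup.mk_mul, ← QuotientGroup.mk_mul]
      exact D.germ_eq (j + 1) fun n hn => D.lel_prod i j k hij hjk hik (by omega) a b)

lemma toGerm_x (i j : ℕ) (h : i ≠ j) (a : R) :
    D.toGerm (x i j h a) = QuotientGroup.mk fun n => D.lel n ⟨i, j, h, a⟩ := by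
  rw [toGerm, St.lift_x]

end Datum

end Pool.Agent.Lib.MP_51ebc3_al
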