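import Mathlib

set_option autoImplicit false

/-!
# Milnor's `K₂` through the Steinberg group

* `St R` is the stable Steinberg group of a commutative ring `R`: generators `x i j a` for
  `i ≠ j` in `ℕ` and `a : R`, with the Steinberg relations.
* `K2 R` is the kernel of the canonical map from `St R` to the group of `R`-linear automorphisms
  of the free module `ℕ →₀ R`, which sends `x i j a` to the elementary transvection.
* `St.map f : St R →* St S` is the map induced by a ring homomorphism `f : R → S`; it maps
  `K2 R` into `K2 S` (`map_mem_K2`), and the map `K₂(R) → K₂(S)` is its restriction.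
* `Frac A` is the product of the localisations of `A` at its minimal primes.
-/

open scoped commutatorElement

namespace Pool.Agent.Lib.MP_51ebc3_al

/-- Index set of the generators of the stable Steinberg group: pairs of distinct natural
numbers, together with a ring element. -/
structure Gen (R : Type*) where
  /-- row index -/
  i : ℕ
  /-- column index -/
  j : ℕ
  /-- the indices are distinct -/
  ne : i ≠ j
  /-- the ring element -/
  a : R

/-- The Steinberg relations. -/
inductive IsStRel (R : Type*) [CommRing R] : FreeGroup (Gen R) → Prop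
  | add (i j : ℕ) (h : i ≠ j) (a b : R) :
      IsStRel R (FreeGroup.of ⟨i, j, h, a⟩ * FreeGroup.of ⟨i, j, h, b⟩ *
        (FreeGroup.of ⟨i, j, h, a + b⟩)⁻¹)
  | comm (i j k l : ℕ) (hij : i ≠ j) (hkl : k ≠ l) (hjk : j ≠ k) (hil : i ≠ l) (a b : R) :
      IsStRel R ⁅FreeGroup.of (⟨i, j, hij, a⟩ : Gen R), FreeGroup.of ⟨k, l, hkl, b⟩⁆
  | prod (i j k : ℕ) (hij : i ≠ j) (hjk : j ≠ k) (hik : i ≠ k) (a b : R) :
      IsStRel R (⁅FreeGroup.of (⟨i, j, hij, a⟩ : Gen R), FreeGroup.of ⟨j, k, hjk, b⟩⁆ *
        (FreeGroup.of ⟨i, k, hik, a * b⟩)⁻¹)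

/-- The stable Steinberg group of a commutative ring. -/
def St (R : Type*) [CommRing R] : Type _ := PresentedGroup {w | IsStRel R w}

noncomputable instance (R : Type*) [CommRing R] : Group (St R) :=
  QuotientGroup.Quotient.group (Subgroup.normalClosure {w | IsStRel R w})

/-- The standard generator `x_{ij}(a)` of the Steinberg group. -/
noncomputable def x {R : Type*} [CommRing R] (i j : ℕ) (h : i ≠ j) (a : R) : St R :=
  PresentedGroup.of (rels := {w | IsStRel R w}) ⟨i, j, h, a⟩

section

variable {R : Type*} [CommRing R]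

/-- Universal property of the Steinberg group. -/
noncomputable def St.lift {G : Type*} [Group G] (f : Gen R → G)
    (hf : ∀ w, IsStRel R w → FreeGroup.lift f w = 1) : St R →* G :=
  PresentedGroup.toGroup (rels := {w | IsStRel R w}) (f := f) hf

@[simp] lemma St.lift_x {G : Type*} [Group G] (f : Gen R → G)
    (hf : ∀ w, IsStRel R w → FreeGroup.lift f w = 1) (i j : ℕ) (h : i ≠ j) (a : R) :
    St.lift f hf (x i j h a) = f ⟨i, j, h, a⟩ :=
  PresentedGroup.toGroup.of hf

lemma rel_eq_one {w : FreeGroup (Gen R)} (hw : IsStRel R w) :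
    (PresentedGroup.mk {w | IsStRel R w} w : St R) = 1 :=
  PresentedGroup.one_of_mem hw

lemma x_mul (i j : ℕ) (h : i ≠ j) (a b : R) : x i j h a * x i j h b = x i j h (a + b) := by
  have := rel_eq_one (IsStRel.add i j h a b)
  exact mul_inv_eq_one.mp this

lemma x_comm (i j k l : ℕ) (hij : i ≠ j) (hkl : k ≠ l) (hjk : j ≠ k) (hil : i ≠ l) (a b : R) :
    ⁅x i j hij a, x k l hkl b⁆ = 1 :=
  rel_eq_one (IsStRel.comm i j k l hij hkl hjk hil a b)

lemma x_prod (i j k : ℕ) (hij : i ≠ j) (hjk : j ≠ k) (hik : i ≠ k) (a b : R) :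
    ⁅x i j hij a, x j k hjk b⁆ = x i k hik (a * b) := by
  have := rel_eq_one (IsStRel.prod i j k hij hjk hik a b)
  exact mul_inv_eq_one.mp this

/-- Two homomorphisms out of the Steinberg group agreeing on generators are equal. -/
lemma St.hom_ext {G : Type*} [Group G] {f g : St R →* G}
    (h : ∀ (i j : ℕ) (hij : i ≠ j) (a : R), f (x i j hij a) = g (x i j hij a)) : f = g := by
  refine PresentedGroup.ext (rels := {w | IsStRel R w}) ?_
  rintro ⟨i, j, hij, a⟩
  exact h i j hij a

lemma St.map_rel {S : Type*} [CommRing S] (f : R →+* S) (w : FreeGroup (Gen R))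
    (hw : IsStRel R w) :
    FreeGroup.lift (fun g : Gen R => x g.i g.j g.ne (f g.a)) w = 1 := by
  cases hw with
  | add i j h a b => simp [x_mul]
  | comm i j k l hij hkl hjk hil a b =>
    rw [map_commutatorElement]
    simp [x_comm, hjk, hil]
  | prod i j k hij hjk hik a b =>
    rw [map_mul, map_commutatorElement]
    simp [x_prod _ _ _ hij hjk hik]

/-- The map on Steinberg groups induced by a ring homomorphism. -/
noncomputable def St.map {S : Type*} [CommRing S] (f : R →+* S) : St R →* St S :=
  St.lift (fun g => x g.i g.j g.ne (f g.a)) (St.map_rel f)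

@[simp] lemma St.map_x {S : Type*} [CommRing S] (f : R →+* S) (i j : ℕ) (h : i ≠ j) (a : R) :
    St.map f (x i j h a) = x i j h (f a) := by
  simp [St.map]

lemma St.map_comp {S T : Type*} [CommRing S] [CommRing T] (f : R →+* S) (g : S →+* T) :
    St.map (g.comp f) = (St.map g).comp (St.map f) :=
  St.hom_ext (by simp)

/-- The matrix unit `a E_{ij}` acting on the free module `ℕ →₀ R`. -/
noncomputable def unitMap (i j : ℕ) (a : R) : Module.End R (ℕ →₀ R) :=
  a • (Finsupp.lsingle i ∘ₗ Finsupp.lapply j)

lemma unitMap_apply (i j : ℕ) (a : R) (v : ℕ →₀ R) :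
    unitMap i j a v = Finsupp.single i (a * v j) := by
  simp [unitMap]

lemma unitMap_add (i j : ℕ) (a b : R) : unitMap i j (a + b) = unitMap i j a + unitMap i j b := by
  simp [unitMap, add_smul]

lemma unitMap_neg (i j : ℕ) (a : R) : unitMap i j (-a) = - unitMap i j a := by
  refine LinearMap.ext fun v => ?_
  rw [LinearMap.neg_apply, unitMap_apply, unitMap_apply, neg_mul, Finsupp.single_neg]

lemma unitMap_mul_of_ne (i j k l : ℕ) (h : j ≠ k) (a b : R) :
    unitMap i j a * unitMap k l b = 0 := by
  ext v : 2
  simp [unitMap_apply, Finsupp.single_apply, h.symm, Module.End.mul_apply]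

lemma unitMap_mul (i j k : ℕ) (a b : R) :
    unitMap i j a * unitMap j k b = unitMap i k (a * b) := by
  refine LinearMap.ext fun v => ?_
  simp [unitMap_apply, Module.End.mul_apply, mul_assoc]

lemma elem_val_inv (i j : ℕ) (h : i ≠ j) (a : R) :
    (1 + unitMap i j a) * (1 + unitMap i j (-a)) = 1 := by
  simp only [mul_add, add_mul, mul_one, one_mul, unitMap_mul_of_ne i j i j h.symm]
  rw [unitMap_neg]
  abel

lemma elem_inv_val' (i j : ℕ) (h : i ≠ j) (a : R) :
    (1 + unitMap i j (-a)) * (1 + unitMap i j a) = 1 := by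
  simp only [mul_add, add_mul, mul_one, one_mul, unitMap_mul_of_ne i j i j h.symm]
  rw [unitMap_neg]
  abel

/-- The elementary transvection `1 + a E_{ij}` as a linear automorphism of `ℕ →₀ R`. -/
noncomputable def elem (i j : ℕ) (h : i ≠ j) (a : R) : (Module.End R (ℕ →₀ R))ˣ where
  val := 1 + unitMap i j a
  inv := 1 + unitMap i j (-a)
  val_inv := elem_val_inv i j h a
  inv_val := elem_inv_val' i j h a

lemma elem_val (i j : ℕ) (h : i ≠ j) (a : R) :
    ((elem i j h a : (Module.End R (ℕ →₀ R))ˣ) : Module.End R (ℕ →₀ R)) =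
      1 + unitMap i j a := rfl

lemma toGL_rel (w : FreeGroup (Gen R)) (hw : IsStRel R w) :
    FreeGroup.lift (fun g : Gen R => elem g.i g.j g.ne g.a) w = 1 := by
  cases hw with
  | add i j h a b =>
    simp only [map_mul, FreeGroup.lift_apply_of, map_inv]
    rw [mul_inv_eq_one]
    ext1
    simp only [Units.val_mul, elem_val, mul_add, add_mul, mul_one, one_mul,
      unitMap_mul_of_ne i j i j h.symm, unitMap_add]
    abel
  | comm i j k l hij hkl hjk hil a b =>
    rw [map_commutatorElement]
    simp only [FreeGroup.lift_apply_of]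
    rw [commutatorElement_eq_one_iff_mul_comm]
    ext1
    simp only [Units.val_mul, elem_val, mul_add, add_mul, mul_one, one_mul,
      unitMap_mul_of_ne i j k l hjk, unitMap_mul_of_ne k l i j hil.symm]
    abel
  | prod i j k hij hjk hik a b =>
    rw [map_mul, map_commutatorElement]
    simp only [FreeGroup.lift_apply_of, map_inv]
    rw [mul_inv_eq_one, commutatorElement_def, mul_inv_eq_iff_eq_mul, mul_inv_eq_iff_eq_mul]
    ext1
    simp only [Units.val_mul, elem_val, mul_add, add_mul, mul_one, one_mul,
      unitMap_mul i j k, unitMap_mul_of_ne i k j k hjk.symm, unitMap_mul_of_ne i k i j hik.symm,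
      unitMap_mul_of_ne j k i j hik.symm, zero_mul]
    abel

/-- The canonical homomorphism from the Steinberg group to the group of linear automorphisms of
`ℕ →₀ R`; its image is the group `E(R) ⊆ GL(R)` generated by elementary matrices. -/
noncomputable def toGL (R : Type*) [CommRing R] : St R →* (Module.End R (ℕ →₀ R))ˣ :=
  St.lift (fun g => elem g.i g.j g.ne g.a) toGL_rel

@[simp] lemma toGL_x (i j : ℕ) (h : i ≠ j) (a : R) : toGL R (x i j h a) = elem i j h a := by
  simp [toGL]

end

/-- Milnor's `K₂` of a commutative ring: the kernel of `St R → GL(R)`. -/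
noncomputable def K2 (R : Type*) [CommRing R] : Subgroup (St R) := (toGL R).ker

section

variable {R S : Type*} [CommRing R] [CommRing S]

lemma mem_K2 (g : St R) : g ∈ K2 R ↔ toGL R g = 1 := Iff.rfl

/-- Induction principle for the Steinberg group. -/
lemma St.induction {P : St R → Prop} (one : P 1)
    (gen : ∀ (i j : ℕ) (h : i ≠ j) (a : R), P (x i j h a))
    (mul : ∀ g h, P g → P h → P (g * h)) (inv : ∀ g, P g → P g⁻¹) (g : St R) : P g := by
  have hg : g ∈ Subgroup.closure (Set.range (PresentedGroup.of (rels := {w | IsStRel R w}))) := by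
    rw [PresentedGroup.closure_range_of]
    exact Subgroup.mem_top _
  induction hg using Subgroup.closure_induction with
  | mem y hy =>
    obtain ⟨⟨i, j, h, a⟩, rfl⟩ := hy
    exact gen i j h a
  | one => exact one
  | mul y z _ _ hy hz => exact mul y z hy hz
  | inv y _ hy => exact inv y hy

/-- Coordinatewise application of a ring homomorphism to finitely supported vectors. -/
noncomputable def vmap (f : R →+* S) : (ℕ →₀ R) →+ (ℕ →₀ S) :=
  Finsupp.mapRange.addMonoidHom f.toAddMonoidHom

lemma vmap_single (f : R →+* S) (i : ℕ) (a : R) :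
    vmap f (Finsupp.single i a) = Finsupp.single i (f a) := by
  simp [vmap]

lemma vmap_apply (f : R →+* S) (v : ℕ →₀ R) (i : ℕ) : vmap f v i = f (v i) := by
  simp [vmap]

lemma toGL_map_apply (f : R →+* S) (g : St R) (v : ℕ →₀ R) :
    (toGL S (St.map f g)).val (vmap f v) = vmap f ((toGL R g).val v) := by
  induction g using St.induction generalizing v with
  | one => simp
  | gen i j h a =>
    rw [St.map_x, toGL_x, toGL_x, elem_val, elem_val, LinearMap.add_apply, LinearMap.add_apply,
      unitMap_apply, unitMap_apply, map_add, vmap_single, map_mul, vmap_apply]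
    rfl
  | mul g h hg hh =>
    rw [map_mul, map_mul, map_mul, Units.val_mul, Units.val_mul, Module.End.mul_apply,
      Module.End.mul_apply, hh, hg]
  | inv g hg =>
    have h1 : v = (toGL R g).val ((toGL R g⁻¹).val v) := by
      rw [← Module.End.mul_apply, ← Units.val_mul, ← map_mul, mul_inv_cancel, map_one]
      rfl
    have h2 := hg ((toGL R g⁻¹).val v)
    rw [← h1] at h2
    rw [← h2, ← Module.End.mul_apply, ← Units.val_mul, ← map_mul, ← map_mul, inv_mul_cancel,
      map_one, map_one]
    rfl

lemma map_mem_K2 (f : R →+* S) {g : St R} (hg : g ∈ K2 R) : St.map f g ∈ K2 S := by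
  rw [mem_K2] at hg ⊢
  ext1
  refine Finsupp.lhom_ext' fun i => ?_
  refine LinearMap.ext_ring ?_
  have h := toGL_map_apply f g (Finsupp.single i 1)
  rw [hg, vmap_single, map_one] at h
  change (toGL S (St.map f g)).val (Finsupp.single i 1) = Finsupp.single i 1
  rw [h]
  change vmap f (Finsupp.single i 1) = _
  rw [vmap_single, map_one]

end

/-- The image of `g` under the map `St R → St S` induced by `f : R → S` is trivial. For `g` in
`K2 R` this says that the image of `g` under `K₂(f) : K₂(R) → K₂(S)` is trivial. -/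
def Dies {R S : Type*} [CommRing R] [CommRing S] (f : R →+* S) (g : St R) : Prop :=
  St.map f g = 1

section

variable (A : Type*) [CommRing A]

/-- The minimal prime ideals of `A`, as a type. -/
abbrev MinPrime : Type _ := {P : Ideal A // P ∈ minimalPrimes A}

instance (P : MinPrime A) : P.1.IsPrime := Ideal.IsMinimalPrime.isPrime P.2

/-- `Frac A`: the product of the localisations of `A` at its minimal prime ideals. -/
abbrev Frac : Type _ := ∀ P : MinPrime A, Localization.AtPrime P.1

/-- The canonical ring homomorphism `A → Frac A`. -/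
noncomputable def toFrac : A →+* Frac A :=
  RingHom.pi fun P => algebraMap A (Localization.AtPrime P.1)

end

end Pool.Agent.Lib.MP_51ebc3_al
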