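import Pool.Agent.Lib.MP_51ebc3_al.Hesse

set_option autoImplicit false

/-!
# Ring-theoretic properties of the Hesse algebra
-/

open IsLocalRing

namespace Pool.Agent.Lib.MP_51ebc3_al

namespace H

variable {S : Type*} [CommRing S] {l : S}

lemma pow_four_eq_zero (n : H S l) (hn : n.a = 0) : n ^ 4 = 0 := by
  have h2 : ∀ m : H S l, m.a = 0 → m.x = 0 → m.y = 0 → m.z = 0 → m * m = 0 := by
    intro m ha hx hy hz
    ext <;> simp [ha, hx, hy, hz]
  have h : n ^ 4 = (n * n) * (n * n) := by ring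
  rw [h]
  exact h2 _ (by simp [hn]) (by simp [hn]) (by simp [hn]) (by simp [hn])

lemma isUnit_of_isUnit_a (r : H S l) (hr : IsUnit r.a) : IsUnit r := by
  have h1 : IsNilpotent (r - algebraMap S (H S l) r.a) :=
    ⟨4, pow_four_eq_zero _ (by simp)⟩
  have h2 := h1.isUnit_add_left_of_commute (hr.map (algebraMap S (H S l))) (Commute.all _ _)
  rwa [add_sub_cancel] at h2

instance : IsLocalHom (proj : H S l →+* S) := ⟨fun r hr => isUnit_of_isUnit_a r hr⟩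

instance [IsLocalRing S] : IsLocalRing (H S l) := RingHom.domain_isLocalRing (proj : H S l →+* S)

instance [IsNoetherianRing S] : IsNoetherianRing (H S l) :=
  IsNoetherianRing.of_finite S (H S l)

lemma mem_maximalIdeal_iff [IsLocalRing S] (r : H S l) :
    r ∈ maximalIdeal (H S l) ↔ r.a ∈ maximalIdeal S := by
  rw [mem_maximalIdeal, mem_maximalIdeal, mem_nonunits_iff, mem_nonunits_iff, not_iff_not]
  exact ⟨fun h => h.map (proj : H S l →+* S), isUnit_of_isUnit_a r⟩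

lemma proj_surjective : Function.Surjective (proj : H S l →+* S) :=
  fun t => ⟨algebraMap S (H S l) t, by simp [proj_apply]⟩

lemma ringKrullDim_eq : ringKrullDim (H S l) = ringKrullDim S := by
  have e := RingHom.quotientKerEquivOfSurjective (proj_surjective (S := S) (l := l))
  rw [← ringKrullDim_eq_of_ringEquiv e, ringKrullDim_quotient]
  have h : PrimeSpectrum.zeroLocus (R := H S l) (RingHom.ker (proj : H S l →+* S)) = Set.univ := by
    rw [PrimeSpectrum.zeroLocus_eq_univ_iff]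
    intro r hr
    exact mem_nilradical.mpr ⟨4, pow_four_eq_zero r hr⟩
  rw [h, ringKrullDim]
  exact (Order.krullDim_eq_of_orderIso (OrderIso.Set.univ)).symm

section complete

/-- The filtration used to compare topologies. -/
def Fil (I : Ideal S) (n : ℕ) : Ideal (H S l) where
  carrier := {r | r.a ∈ I ^ n ∧ (r.x ∈ I ^ (n - 1) ∧ r.y ∈ I ^ (n - 1) ∧ r.z ∈ I ^ (n - 1)) ∧
    (r.u ∈ I ^ (n - 2) ∧ r.v ∈ I ^ (n - 2) ∧ r.w ∈ I ^ (n - 2)) ∧ r.c ∈ I ^ (n - 3)}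
  zero_mem' := by simp
  add_mem' := by
    rintro r s ⟨h1, ⟨h2, h3, h4⟩, ⟨h5, h6, h7⟩, h8⟩ ⟨k1, ⟨k2, k3, k4⟩, ⟨k5, k6, k7⟩, k8⟩
    exact ⟨add_mem h1 k1, ⟨add_mem h2 k2, add_mem h3 k3, add_mem h4 k4⟩,
      ⟨add_mem h5 k5, add_mem h6 k6, add_mem h7 k7⟩, add_mem h8 k8⟩
  smul_mem' := by
    rintro r s ⟨k1, ⟨k2, k3, k4⟩, ⟨k5, k6, k7⟩, k8⟩
    have m1 : ∀ t, t ∈ I ^ n → t ∈ I ^ (n - 1) := fun t ht =>
      Ideal.pow_le_pow_right (by omega) ht
    have m2 : ∀ t, t ∈ I ^ (n - 1) → t ∈ I ^ (n - 2) := fun t ht =>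
      Ideal.pow_le_pow_right (by omega) ht
    have m3 : ∀ t, t ∈ I ^ (n - 2) → t ∈ I ^ (n - 3) := fun t ht =>
      Ideal.pow_le_pow_right (by omega) ht
    have L : ∀ (J : Ideal S) (t u : S), u ∈ J → t * u ∈ J := fun J t u hu => J.mul_mem_left t hu
    have L' : ∀ (J : Ideal S) (t u : S), t ∈ J → t * u ∈ J := fun J t u hu => J.mul_mem_right u hu
    refine ⟨?_, ⟨?_, ?_, ?_⟩, ⟨?_, ?_, ?_⟩, ?_⟩
    · exact L _ _ _ k1
    · exact add_mem (L _ _ _ k2) (L _ _ _ (m1 _ k1))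
    · exact add_mem (L _ _ _ k3) (L _ _ _ (m1 _ k1))
    · exact add_mem (L _ _ _ k4) (L _ _ _ (m1 _ k1))
    · exact add_mem (add_mem (L _ _ _ k5) (L _ _ _ (m2 _ (m1 _ k1))))
        (add_mem (add_mem (L _ _ _ (L _ _ _ (m2 _ k2))) (L _ _ _ (m2 _ k4)))
          (L _ _ _ (m2 _ k3)))
    · exact add_mem (add_mem (L _ _ _ k6) (L _ _ _ (m2 _ (m1 _ k1))))
        (add_mem (add_mem (L _ _ _ (L _ _ _ (m2 _ k3))) (L _ _ _ (m2 _ k4)))
          (L _ _ _ (m2 _ k2)))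
    · exact add_mem (add_mem (L _ _ _ k7) (L _ _ _ (m2 _ (m1 _ k1))))
        (add_mem (add_mem (L _ _ _ (L _ _ _ (m2 _ k4))) (L _ _ _ (m2 _ k3)))
          (L _ _ _ (m2 _ k2)))
    · exact add_mem (add_mem (add_mem (add_mem (L _ _ _ k8) (L _ _ _ (m3 _ (m2 _ (m1 _ k1)))))
        (add_mem (L _ _ _ (m3 _ k5)) (L _ _ _ (m3 _ (m2 _ k2)))))
        (add_mem (L _ _ _ (m3 _ k6)) (L _ _ _ (m3 _ (m2 _ k3)))))
        (add_mem (L _ _ _ (m3 _ k7)) (L _ _ _ (m3 _ (m2 _ k4))))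

lemma mem_Fil (I : Ideal S) (n : ℕ) (r : H S l) : r ∈ Fil I n ↔
    (r.a ∈ I ^ n ∧ (r.x ∈ I ^ (n - 1) ∧ r.y ∈ I ^ (n - 1) ∧ r.z ∈ I ^ (n - 1)) ∧
    (r.u ∈ I ^ (n - 2) ∧ r.v ∈ I ^ (n - 2) ∧ r.w ∈ I ^ (n - 2)) ∧ r.c ∈ I ^ (n - 3)) := Iff.rfl

lemma pow_mul_mem (I : Ideal S) {i j k : ℕ} (h : k ≤ i + j) {s t : S} (hs : s ∈ I ^ i)
    (ht : t ∈ I ^ j) : s * t ∈ I ^ k :=
  Ideal.pow_le_pow_right h (by rw [pow_add]; exact Ideal.mul_mem_mul hs ht)

lemma Fil_mul (I : Ideal S) (m : ℕ) : Fil I 1 * Fil I m ≤ (Fil I (m + 1) : Ideal (H S l)) := by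
  rw [Ideal.mul_le]
  rintro r ⟨h1, ⟨h2, h3, h4⟩, ⟨h5, h6, h7⟩, h8⟩ s ⟨k1, ⟨k2, k3, k4⟩, ⟨k5, k6, k7⟩, k8⟩
  refine ⟨?_, ⟨?_, ?_, ?_⟩, ⟨?_, ?_, ?_⟩, ?_⟩
  · exact pow_mul_mem I (by omega) h1 k1
  · exact add_mem (pow_mul_mem I (by omega) h1 k2) (pow_mul_mem I (by omega) h2 k1)
  · exact add_mem (pow_mul_mem I (by omega) h1 k3) (pow_mul_mem I (by omega) h3 k1)
  · exact add_mem (pow_mul_mem I (by omega) h1 k4) (pow_mul_mem I (by omega) h4 k1)
  · exact add_mem (add_mem (pow_mul_mem I (by omega) h1 k5) (pow_mul_mem I (by omega) h5 k1))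
      (add_mem (add_mem (Ideal.mul_mem_left _ _ (pow_mul_mem I (by omega) h2 k2))
        (pow_mul_mem I (by omega) h3 k4)) (pow_mul_mem I (by omega) h4 k3))
  · exact add_mem (add_mem (pow_mul_mem I (by omega) h1 k6) (pow_mul_mem I (by omega) h6 k1))
      (add_mem (add_mem (Ideal.mul_mem_left _ _ (pow_mul_mem I (by omega) h3 k3))
        (pow_mul_mem I (by omega) h2 k4)) (pow_mul_mem I (by omega) h4 k2))
  · exact add_mem (add_mem (pow_mul_mem I (by omega) h1 k7) (pow_mul_mem I (by omega) h7 k1))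
      (add_mem (add_mem (Ideal.mul_mem_left _ _ (pow_mul_mem I (by omega) h4 k4))
        (pow_mul_mem I (by omega) h2 k3)) (pow_mul_mem I (by omega) h3 k2))
  · exact add_mem (add_mem (add_mem (add_mem (pow_mul_mem I (by omega) h1 k8)
      (pow_mul_mem I (by omega) h8 k1))
      (add_mem (pow_mul_mem I (by omega) h2 k5) (pow_mul_mem I (by omega) h5 k2)))
      (add_mem (pow_mul_mem I (by omega) h3 k6) (pow_mul_mem I (by omega) h6 k3)))
      (add_mem (pow_mul_mem I (by omega) h4 k7) (pow_mul_mem I (by omega) h7 k4))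

variable [IsLocalRing S]

lemma maximalIdeal_eq_Fil : maximalIdeal (H S l) = Fil (maximalIdeal S) 1 := by
  ext r
  rw [mem_maximalIdeal_iff, mem_Fil]
  simp

lemma pow_le_Fil (n : ℕ) : maximalIdeal (H S l) ^ n ≤ Fil (maximalIdeal S) n := by
  induction n with
  | zero =>
    intro r _
    rw [mem_Fil]
    simp
  | succ n ih =>
    rw [pow_succ']
    refine le_trans ?_ (Fil_mul (maximalIdeal S) n)
    rw [← maximalIdeal_eq_Fil]
    exact Ideal.mul_mono_right ih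

/-- All coordinates of `r` lie in `J`. -/
def AllIn (J : Ideal S) (r : H S l) : Prop :=
  r.a ∈ J ∧ r.x ∈ J ∧ r.y ∈ J ∧ r.z ∈ J ∧ r.u ∈ J ∧ r.v ∈ J ∧ r.w ∈ J ∧ r.c ∈ J

lemma allIn_of_mem_pow (n : ℕ) (r : H S l) (hr : r ∈ maximalIdeal (H S l) ^ (n + 3)) :
    AllIn (maximalIdeal S ^ n) r := by
  obtain ⟨k1, ⟨k2, k3, k4⟩, ⟨k5, k6, k7⟩, k8⟩ := pow_le_Fil (n + 3) hr
  have m : ∀ (k : ℕ) (t : S), n ≤ k → t ∈ maximalIdeal S ^ k → t ∈ maximalIdeal S ^ n :=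
    fun k t hk ht => Ideal.pow_le_pow_right hk ht
  exact ⟨m _ _ (by omega) k1, m _ _ (by omega) k2, m _ _ (by omega) k3, m _ _ (by omega) k4,
    m _ _ (by omega) k5, m _ _ (by omega) k6, m _ _ (by omega) k7, m _ _ (by omega) k8⟩

lemma algebraMap_mem_pow (n : ℕ) (t : S) (ht : t ∈ maximalIdeal S ^ n) :
    algebraMap S (H S l) t ∈ maximalIdeal (H S l) ^ n := by
  have h1 : Ideal.map (algebraMap S (H S l)) (maximalIdeal S ^ n) ≤
      maximalIdeal (H S l) ^ n := by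
    rw [Ideal.map_pow]
    refine Ideal.pow_right_mono ?_ n
    rw [Ideal.map_le_iff_le_comap]
    intro s hs
    rw [Ideal.mem_comap, mem_maximalIdeal_iff]
    simpa using hs
  exact h1 (Ideal.mem_map_of_mem _ ht)

lemma mem_pow_of_allIn (n : ℕ) (r : H S l) (hr : AllIn (maximalIdeal S ^ n) r) :
    r ∈ maximalIdeal (H S l) ^ n := by
  obtain ⟨k1, k2, k3, k4, k5, k6, k7, k8⟩ := hr
  have h : r = algebraMap S (H S l) r.a * 1 +
      algebraMap S (H S l) r.x * ⟨0, 1, 0, 0, 0, 0, 0, 0⟩ +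
      algebraMap S (H S l) r.y * ⟨0, 0, 1, 0, 0, 0, 0, 0⟩ +
      algebraMap S (H S l) r.z * ⟨0, 0, 0, 1, 0, 0, 0, 0⟩ +
      algebraMap S (H S l) r.u * ⟨0, 0, 0, 0, 1, 0, 0, 0⟩ +
      algebraMap S (H S l) r.v * ⟨0, 0, 0, 0, 0, 1, 0, 0⟩ +
      algebraMap S (H S l) r.w * ⟨0, 0, 0, 0, 0, 0, 1, 0⟩ +
      algebraMap S (H S l) r.c * ⟨0, 0, 0, 0, 0, 0, 0, 1⟩ := by
    ext <;> simp
  rw [h]
  have m : ∀ (t : S) (s : H S l), t ∈ maximalIdeal S ^ n →
      algebraMap S (H S l) t * s ∈ maximalIdeal (H S l) ^ n :=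
    fun t s ht => Ideal.mul_mem_right _ _ (algebraMap_mem_pow n t ht)
  exact add_mem (add_mem (add_mem (add_mem (add_mem (add_mem (add_mem (m _ _ k1) (m _ _ k2))
    (m _ _ k3)) (m _ _ k4)) (m _ _ k5)) (m _ _ k6)) (m _ _ k7)) (m _ _ k8)

lemma smodEq_iff {A : Type*} [CommRing A] (I : Ideal A) (n : ℕ) (s t : A) :
    s ≡ t [SMOD (I ^ n • ⊤ : Submodule A A)] ↔ s - t ∈ I ^ n := by
  rw [SModEq.sub_mem, smul_eq_mul, Ideal.mul_top]

lemma exists_limit [IsAdicComplete (maximalIdeal S) S] (f : ℕ → S)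
    (hf : ∀ m n, m ≤ n → f m - f n ∈ maximalIdeal S ^ m) :
    ∃ L : S, ∀ n, f n - L ∈ maximalIdeal S ^ n := by
  obtain ⟨L, hL⟩ := IsPrecomplete.prec (I := maximalIdeal S) (M := S) inferInstance (f := f)
    (fun {m n} hmn => (smodEq_iff _ _ _ _).mpr (hf m n hmn))
  exact ⟨L, fun n => (smodEq_iff _ _ _ _).mp (hL n)⟩

lemma eq_zero_of_forall [IsAdicComplete (maximalIdeal S) S] (t : S)
    (ht : ∀ n, t ∈ maximalIdeal S ^ n) : t = 0 := by
  refine IsHausdorff.haus (I := maximalIdeal S) (M := S) inferInstance t fun n => ?_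
  rw [smodEq_iff, sub_zero]
  exact ht n

instance [IsAdicComplete (maximalIdeal S) S] :
    IsAdicComplete (maximalIdeal (H S l)) (H S l) where
  haus' := by
    intro r hr
    have h : ∀ n, AllIn (maximalIdeal S ^ n) r := by
      intro n
      have := (smodEq_iff _ _ _ _).mp (hr (n + 3))
      rw [sub_zero] at this
      exact allIn_of_mem_pow n r this
    ext
    · exact eq_zero_of_forall _ fun n => (h n).1
    · exact eq_zero_of_forall _ fun n => (h n).2.1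
    · exact eq_zero_of_forall _ fun n => (h n).2.2.1
    · exact eq_zero_of_forall _ fun n => (h n).2.2.2.1
    · exact eq_zero_of_forall _ fun n => (h n).2.2.2.2.1
    · exact eq_zero_of_forall _ fun n => (h n).2.2.2.2.2.1
    · exact eq_zero_of_forall _ fun n => (h n).2.2.2.2.2.2.1
    · exact eq_zero_of_forall _ fun n => (h n).2.2.2.2.2.2.2
  prec' := by
    intro f hf
    have h : ∀ m n, m ≤ n → AllIn (maximalIdeal S ^ m) (f (m + 3) - f (n + 3)) := by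
      intro m n hmn
      exact allIn_of_mem_pow m _ ((smodEq_iff _ _ _ _).mp (hf (by omega)))
    obtain ⟨La, ha⟩ := exists_limit (fun n => (f (n + 3)).a) fun m n hmn => (h m n hmn).1
    obtain ⟨Lx, hx⟩ := exists_limit (fun n => (f (n + 3)).x) fun m n hmn => (h m n hmn).2.1
    obtain ⟨Ly, hy⟩ := exists_limit (fun n => (f (n + 3)).y) fun m n hmn => (h m n hmn).2.2.1
    obtain ⟨Lz, hz⟩ := exists_limit (fun n => (f (n + 3)).z) fun m n hmn => (h m n hmn).2.2.2.1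
    obtain ⟨Lu, hu⟩ := exists_limit (fun n => (f (n + 3)).u) fun m n hmn =>
      (h m n hmn).2.2.2.2.1
    obtain ⟨Lv, hv⟩ := exists_limit (fun n => (f (n + 3)).v) fun m n hmn =>
      (h m n hmn).2.2.2.2.2.1
    obtain ⟨Lw, hw⟩ := exists_limit (fun n => (f (n + 3)).w) fun m n hmn =>
      (h m n hmn).2.2.2.2.2.2.1
    obtain ⟨Lc, hc⟩ := exists_limit (fun n => (f (n + 3)).c) fun m n hmn =>
      (h m n hmn).2.2.2.2.2.2.2
    refine ⟨⟨La, Lx, Ly, Lz, Lu, Lv, Lw, Lc⟩, fun n => ?_⟩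
    rw [smodEq_iff]
    have h1 : f n - f (n + 3) ∈ maximalIdeal (H S l) ^ n :=
      (smodEq_iff _ _ _ _).mp (hf (by omega))
    have h2 : f (n + 3) - ⟨La, Lx, Ly, Lz, Lu, Lv, Lw, Lc⟩ ∈ maximalIdeal (H S l) ^ n :=
      mem_pow_of_allIn n _ ⟨ha n, hx n, hy n, hz n, hu n, hv n, hw n, hc n⟩
    have h3 := add_mem h1 h2
    rwa [sub_add_sub_cancel] at h3

end complete

end H

end Pool.Agent.Lib.MP_51ebc3_al
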