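import Pool.Agent.Lib.MP_51ebc3_al.Vanish
import Pool.Agent.Lib.MP_51ebc3_al.Cocycle
import Pool.Agent.Lib.MP_51ebc3_al.HesseRing

set_option autoImplicit false

/-!
# Detecting the elements `Q(η, s)`
-/

open scoped commutatorElement

namespace Pool.Agent.Lib.MP_51ebc3_al

namespace Datum

variable {R T : Type*} [CommRing R] [CommRing T] (D : Datum R T)

/-- The commutator of lifts of elementary matrices. -/
def thetaE (n i j : ℕ) (h : i ≠ j) (η s : R) : D.Ext n :=
  ⁅D.lel n ⟨i, j, h, η⟩, D.lel n ⟨j, i, h.symm, s⟩⁆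

lemma Em_self_mul (n k : ℕ) (w : R) (hw : w * w = 0) : Em n k k w * Em n k k w = 0 := by
  by_cases hk : k < n
  · rw [Em_mul k k k hk, hw, Em_zero]
  · have : Em n k k w = 0 := by
      ext r s
      have : (r : ℕ) ≠ k := fun h => hk (h ▸ r.2)
      simp [Em, this]
    rw [this, zero_mul]

lemma dg_aux (n i j : ℕ) (h : i ≠ j) (w : R) (hw : w * w = 0) :
    (Em n i i w - Em n j j w) * (Em n i i w - Em n j j w) = 0 := by
  simp only [mul_sub, sub_mul, Em_mul_ne i i j j h, Em_mul_ne j j i i h.symm,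
    Em_self_mul n _ w hw, sub_zero]

/-- The diagonal matrix `1 + w E_{ii} - w E_{jj}`. -/
def dg (n i j : ℕ) (h : i ≠ j) (w : R) (hw : w * w = 0) : (Matrix (Fin n) (Fin n) R)ˣ where
  val := 1 + (Em n i i w - Em n j j w)
  inv := 1 - (Em n i i w - Em n j j w)
  val_inv := by
    rw [mul_sub, mul_one, add_mul, one_mul, dg_aux n i j h w hw]
    abel
  inv_val := by
    rw [mul_add, mul_one, sub_mul, one_mul, dg_aux n i j h w hw]
    abel

lemma dg_val (n i j : ℕ) (h : i ≠ j) (w : R) (hw : w * w = 0) :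
    (dg n i j h w hw).val = 1 + (Em n i i w - Em n j j w) := rfl

lemma dg_inv_val (n i j : ℕ) (h : i ≠ j) (w : R) (hw : w * w = 0) :
    ((dg n i j h w hw)⁻¹).val = 1 - (Em n i i w - Em n j j w) := rfl

lemma thetaE_eq (n i j : ℕ) (h : i ≠ j) (hi : i < n) (hj : j < n) (η s : R)
    (h1 : η * s * η = 0) (h2 : η * s * s = 0) (h3 : D.ι s * D.E (η * s) = 0) :
    D.thetaE n i j h η s = ⟨dg n i j h (η * s) (by linear_combination s * h1),
      D.E η * (D.φ s - D.ι s) - D.E s * (D.φ η - D.ι η)⟩ := by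
  have hw : η * s * (η * s) = 0 := by linear_combination s * h1
  rw [thetaE, commutatorElement_def, mul_inv_eq_iff_eq_mul, mul_inv_eq_iff_eq_mul]
  have z1 : η * s * η = 0 := h1
  have z2 : η * s * s = 0 := h2
  have z3 : s * η = η * s := mul_comm _ _
  have z4 : D.ι (η * s) * D.E (η * s) = 0 := by
    rw [map_mul]; linear_combination D.ι η * h3
  have z5 : D.E (η * s) * D.ι s = 0 := by rw [mul_comm]; exact h3
  ext1
  · ext1
    simp only [lel, Ext.mul_g, Units.val_mul, el_val, dg_val, mul_add, add_mul, mul_sub, sub_mul,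
      mul_one, one_mul, Em_mul i j i hj, Em_mul j i j hi, Em_mul i i j hi, Em_mul j j i hj,
      Em_mul_ne i i j i h, Em_mul_ne j j i j h.symm, z1, z2, z3, Em_zero]
    abel
  · have hL : D.L (dg n i j h (η * s) hw) =
        Em n i i (D.E (η * s)) - Em n j j (D.E (η * s)) := by
      rw [L, dg_val, dg_inv_val, ιM_sub, ιM_one, ιM_sub, EM_add, EM_one, zero_add, EM_sub,
        ιM_Em, ιM_Em, EM_Em, EM_Em]
      simp only [mul_sub, sub_mul, one_mul, Em_mul i i i hi, Em_mul j j j hj,
        Em_mul_ne i i j j h, Em_mul_ne j j i i h.symm, z4, Em_zero]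
      abel
    simp only [lel, Ext.mul_t, Ext.mul_g, coc_eq, L_mul, L_el, U_el, hL, el_val, el_inv_val,
      ιM_add, ιM_sub, ιM_one, ιM_Em, mul_add, add_mul, mul_sub, sub_mul, mul_one, one_mul,
      Em_mul i j i hj, Em_mul j i i hi, Em_mul j i j hi, Em_mul i i j hi, Em_mul j j i hj,
      Em_mul_ne j i j j h, Em_mul_ne i i j i h, Em_mul_ne j j i j h.symm, Matrix.trace_add, Matrix.trace_sub, trace_Em i hi, trace_Em j hj,
      trace_Em_ne i j h, trace_Em_ne j i h.symm, Matrix.trace_zero, h3, z5, Em_zero, zero_mul]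
    ring

/-- Elements of the extension lying over diagonal matrices `1 + diag(d)` with `d` in `P`. -/
def Good (P : R → Prop) {n : ℕ} (G : D.Ext n) : Prop :=
  ∃ d : Fin n → R, (∀ i, P (d i)) ∧ G.g.val = 1 + Matrix.diagonal d ∧
    (G.g⁻¹).val = 1 - Matrix.diagonal d

lemma good_mul (P : R → Prop) (hadd : ∀ a b, P a → P b → P (a + b))
    (hmul : ∀ a b, P a → P b → a * b = 0)
    (hED : ∀ a b, P a → P b → D.E a * (D.φ b - D.ι b) = 0) {n : ℕ} (G G' : D.Ext n)
    (hG : D.Good P G) (hG' : D.Good P G') : D.Good P (G * G') ∧ (G * G').t = G.t + G'.t := by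
  obtain ⟨d, hd, h1, h2⟩ := hG
  obtain ⟨d', hd', h1', h2'⟩ := hG'
  have hdd : Matrix.diagonal d * Matrix.diagonal d' = (0 : Matrix (Fin n) (Fin n) R) := by
    rw [Matrix.diagonal_mul_diagonal]
    ext i j
    by_cases hij : i = j
    · subst hij; simp [hmul _ _ (hd i) (hd' i)]
    · simp [Matrix.diagonal_apply_ne _ hij]
  have hdd' : Matrix.diagonal d' * Matrix.diagonal d = (0 : Matrix (Fin n) (Fin n) R) := by
    rw [Matrix.diagonal_mul_diagonal]
    ext i j
    by_cases hij : i = j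
    · subst hij; simp [hmul _ _ (hd' i) (hd i)]
    · simp [Matrix.diagonal_apply_ne _ hij]
  have hsum : Matrix.diagonal (d + d') = Matrix.diagonal d + Matrix.diagonal d' :=
    (Matrix.diagonal_add _ _).symm
  refine ⟨⟨d + d', fun i => hadd _ _ (hd i) (hd' i), ?_, ?_⟩, ?_⟩
  · rw [Ext.mul_g, Units.val_mul, h1, h1', mul_add, mul_one, add_mul, one_mul, hdd, hsum]
    abel
  · rw [Ext.mul_g, mul_inv_rev, Units.val_mul, h2, h2', mul_sub, mul_one, sub_mul, one_mul, hdd',
      hsum]
    abel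
  · rw [Ext.mul_t, coc_eq]
    have hEdiag : D.EM (1 + Matrix.diagonal d) = Matrix.diagonal fun i => D.E (d i) := by
      rw [EM_add, EM_one, zero_add]
      ext i j
      by_cases hij : i = j
      · subst hij; simp [EM]
      · simp [EM, Matrix.diagonal_apply_ne _ hij]
    have hδdiag : D.φM (1 + Matrix.diagonal d') - D.ιM (1 + Matrix.diagonal d') =
        Matrix.diagonal fun i => D.φ (d' i) - D.ι (d' i) := by
      rw [φM_add, φM_one, ιM_add, ιM_one]
      ext i j
      by_cases hij : i = j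
      · subst hij; simp [φM, ιM]
      · simp [φM, ιM, Matrix.diagonal_apply_ne _ hij]
    have h0 : (Matrix.diagonal fun i => D.E (d i)) *
        (Matrix.diagonal fun i => D.φ (d' i) - D.ι (d' i)) = 0 := by
      rw [Matrix.diagonal_mul_diagonal]
      ext i j
      by_cases hij : i = j
      · subst hij; simp [hED _ _ (hd i) (hd' i)]
      · simp [Matrix.diagonal_apply_ne _ hij]
    have : D.L G.g * D.U G'.g = 0 := by
      rw [L, U_eq, h1, h1', hEdiag, hδdiag]
      rw [mul_assoc, ← mul_assoc (Matrix.diagonal fun i => D.E (d i)), h0, zero_mul, mul_zero]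
    rw [this, Matrix.trace_zero, add_zero]

lemma Em_diag (n i : ℕ) (w : R) :
    Em n i i w = Matrix.diagonal fun k : Fin n => if (k : ℕ) = i then w else 0 := by
  ext r s
  by_cases h : r = s
  · subst h; simp [Em]
  · rw [Matrix.diagonal_apply_ne _ h]
    simp only [Em]
    rw [if_neg]
    rintro ⟨h1, h2⟩
    exact h (Fin.ext (h1.trans h2.symm))

lemma good_dg (P : R → Prop) (h0 : P 0) (hneg : ∀ a, P a → P (-a))
    (hadd : ∀ a b, P a → P b → P (a + b)) (n i j : ℕ) (h : i ≠ j) (w : R)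
    (hw : w * w = 0) (hP : P w) (t : T) : D.Good P (⟨dg n i j h w hw, t⟩ : D.Ext n) := by
  refine ⟨(fun k : Fin n => if (k : ℕ) = i then w else 0) -
    (fun k : Fin n => if (k : ℕ) = j then w else 0), ?_, ?_, ?_⟩
  · intro k
    simp only [Pi.sub_apply]
    rw [sub_eq_add_neg]
    refine hadd _ _ ?_ (hneg _ ?_)
    · split_ifs
      · exact hP
      · exact h0
    · split_ifs
      · exact hP
      · exact h0
  · rw [dg_val, Em_diag, Em_diag, Matrix.diagonal_sub]
    rfl
  · rw [dg_inv_val, Em_diag, Em_diag, Matrix.diagonal_sub]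
    rfl

end Datum

end Pool.Agent.Lib.MP_51ebc3_al
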