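import Pool.Agent.Lib.MP_51ebc3_al.Detect

set_option autoImplicit false

/-!
# Non-vanishing of the class in `K₂` of the Hesse algebra
-/

open scoped commutatorElement

namespace Pool.Agent.Lib.MP_51ebc3_al

namespace H

variable {S : Type*} [CommRing S] {l : S}

/-- The element `t U`. -/
def uu (t : S) : H S l := ⟨0, 0, 0, 0, t, 0, 0, 0⟩
/-- The element `t V`. -/
def vv (t : S) : H S l := ⟨0, 0, 0, 0, 0, t, 0, 0⟩
/-- The element `t W`. -/
def ww (t : S) : H S l := ⟨0, 0, 0, 0, 0, 0, t, 0⟩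
/-- The element `t C`. -/
def cc (t : S) : H S l := ⟨0, 0, 0, 0, 0, 0, 0, t⟩
/-- The element `X`. -/
def X : H S l := ⟨0, 1, 0, 0, 0, 0, 0, 0⟩
/-- The element `Y`. -/
def Y : H S l := ⟨0, 0, 1, 0, 0, 0, 0, 0⟩
/-- The element `Z`. -/
def Z : H S l := ⟨0, 0, 0, 1, 0, 0, 0, 0⟩

/-- The class in `K₂` of the Hesse algebra attached to `m`. -/
noncomputable def XX (m : S) : St (H S l) := Q (uu m) (-X) * Q (vv m) (-Y) * Q (ww m) (-Z)

section datum

variable {T₀ : Type*} [CommRing T₀] {l₀ : T₀}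

/-- Change of the base ring. -/
def baseMap' (f : S →+* T₀) (h : f l = l₀) : H S l →+* H T₀ l₀ where
  toFun r := ⟨f r.a, f r.x, f r.y, f r.z, f r.u, f r.v, f r.w, f r.c⟩
  map_one' := by ext <;> simp
  map_zero' := by ext <;> simp
  map_mul' r s := by ext <;> simp [h]
  map_add' r s := by ext <;> simp

lemma baseMap'_apply (f : S →+* T₀) (h : f l = l₀) (r : H S l) :
    (baseMap' f h r : H T₀ l₀) =
      ⟨f r.a, f r.x, f r.y, f r.z, f r.u, f r.v, f r.w, f r.c⟩ := rfl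

/-- The Euler derivation followed by the change of base. -/
def euler (f : S →+* T₀) : H S l →+ H T₀ l₀ where
  toFun r := ⟨0, f r.x, f r.y, f r.z, 2 * f r.u, 2 * f r.v, 2 * f r.w, 3 * f r.c⟩
  map_zero' := by ext <;> simp
  map_add' r s := by ext <;> simp <;> ring

lemma euler_apply (f : S →+* T₀) (r : H S l) :
    (euler f r : H T₀ l₀) =
      ⟨0, f r.x, f r.y, f r.z, 2 * f r.u, 2 * f r.v, 2 * f r.w, 3 * f r.c⟩ := rfl

/-- The datum for the Hesse algebra. -/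
def datum (ι₀ φ₀ : S →+* T₀) (hι : ι₀ l = l₀) (hφ : φ₀ l = l₀)
    (hsq : ∀ s t, (φ₀ s - ι₀ s) * (φ₀ t - ι₀ t) = 0) : Datum (H S l) (H T₀ l₀) where
  ι := baseMap' ι₀ hι
  φ := baseMap' φ₀ hφ
  E := euler ι₀
  leib r s := by
    ext <;> simp [baseMap'_apply, euler_apply, hι] <;> ring
  sq r s := by
    ext <;> simp [baseMap'_apply, hsq]

variable (ι₀ φ₀ : S →+* T₀) (hι : ι₀ l = l₀) (hφ : φ₀ l = l₀)
    (hsq : ∀ s t, (φ₀ s - ι₀ s) * (φ₀ t - ι₀ t) = 0)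

/-- Elements of the socle. -/
def Soc (r : H S l) : Prop :=
  r.a = 0 ∧ r.x = 0 ∧ r.y = 0 ∧ r.z = 0 ∧ r.u = 0 ∧ r.v = 0 ∧ r.w = 0

lemma toGerm_theta {R T : Type*} [CommRing R] [CommRing T] (D : Datum R T) (i j : ℕ)
    (h : i ≠ j) (η s : R) :
    D.toGerm (theta i j h η s) = QuotientGroup.mk fun n => D.thetaE n i j h η s := by
  rw [theta, map_commutatorElement, D.toGerm_x, D.toGerm_x]
  rfl

lemma toGerm_Q {R T : Type*} [CommRing R] [CommRing T] (D : Datum R T) (η s : R) :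
    D.toGerm (Q η s) = QuotientGroup.mk fun n => D.thetaE n 0 2 (by decide) η s *
      D.thetaE n 1 0 (by decide) η s * D.thetaE n 2 1 (by decide) η s := by
  rw [Q, map_mul, map_mul, toGerm_theta, toGerm_theta, toGerm_theta]
  rfl

/-- Value of the product of the three commutators. -/
lemma good_Q {R T : Type*} [CommRing R] [CommRing T] (D : Datum R T) (P : R → Prop) (h0 : P 0)
    (hneg : ∀ a, P a → P (-a)) (hadd : ∀ a b, P a → P b → P (a + b))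
    (hmul : ∀ a b, P a → P b → a * b = 0)
    (hED : ∀ a b, P a → P b → D.E a * (D.φ b - D.ι b) = 0) (n : ℕ) (hn : 3 ≤ n) (η s : R)
    (h1 : η * s * η = 0) (h2 : η * s * s = 0) (h3 : D.ι s * D.E (η * s) = 0) (hP : P (η * s))
    (τ : T) (hτ : D.E η * (D.φ s - D.ι s) - D.E s * (D.φ η - D.ι η) = τ) :
    D.Good P (D.thetaE n 0 2 (by decide) η s *
      D.thetaE n 1 0 (by decide) η s * D.thetaE n 2 1 (by decide) η s) ∧
    (D.thetaE n 0 2 (by decide) η s *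
      D.thetaE n 1 0 (by decide) η s * D.thetaE n 2 1 (by decide) η s).t = 3 * τ := by
  have g : ∀ (i j : ℕ) (h : i ≠ j) (_ : i < n) (_ : j < n),
      D.Good P (D.thetaE n i j h η s) ∧ (D.thetaE n i j h η s).t = τ := by
    intro i j h hi hj
    rw [D.thetaE_eq n i j h hi hj η s h1 h2 h3]
    exact ⟨D.good_dg P h0 hneg hadd n i j h _ _ hP _, hτ⟩
  obtain ⟨a1, b1⟩ := g 0 2 (by decide) (by omega) (by omega)
  obtain ⟨a2, b2⟩ := g 1 0 (by decide) (by omega) (by omega)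
  obtain ⟨a3, b3⟩ := g 2 1 (by decide) (by omega) (by omega)
  obtain ⟨a4, b4⟩ := D.good_mul P hadd hmul hED _ _ a1 a2
  obtain ⟨a5, b5⟩ := D.good_mul P hadd hmul hED _ _ a4 a3
  refine ⟨a5, ?_⟩
  rw [b5, b4, b1, b2, b3]
  ring

include hι hφ hsq in
/-- The class attached to `m` is non-trivial as soon as `9 (φ₀ m - ι₀ m) ≠ 0`. -/
theorem XX_ne_one (m : S) (h9 : 9 * (φ₀ m - ι₀ m) ≠ 0) : (XX m : St (H S l)) ≠ 1 := by
  intro hX
  let D : Datum (H S l) (H T₀ l₀) := datum ι₀ φ₀ hι hφ hsq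
  have hE : ∀ r, D.E r = euler ι₀ r := fun _ => rfl
  have hi : ∀ r, D.ι r = baseMap' ι₀ hι r := fun _ => rfl
  have hf : ∀ r, D.φ r = baseMap' φ₀ hφ r := fun _ => rfl
  have hG := congrArg D.toGerm hX
  rw [XX, map_mul, map_mul, toGerm_Q, toGerm_Q, toGerm_Q, map_one] at hG
  rw [← QuotientGroup.mk_mul, ← QuotientGroup.mk_mul, QuotientGroup.eq_one_iff,
    D.mem_evTriv] at hG
  obtain ⟨n₀, hn₀⟩ := hG
  have hn := hn₀ (max n₀ 3) (le_max_left _ _)
  have hn3 : 3 ≤ max n₀ 3 := le_max_right _ _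
  revert hn hn3
  generalize max n₀ 3 = n
  intro hn hn3
  rw [Pi.mul_apply, Pi.mul_apply] at hn
  have h0 : Soc (0 : H S l) := by simp [Soc]
  have hneg : ∀ a : H S l, Soc a → Soc (-a) := by
    rintro a ⟨h1, h2, h3, h4, h5, h6, h7⟩
    simp [Soc, *]
  have hadd : ∀ a b : H S l, Soc a → Soc b → Soc (a + b) := by
    rintro a b ⟨h1, h2, h3, h4, h5, h6, h7⟩ ⟨k1, k2, k3, k4, k5, k6, k7⟩
    simp [Soc, *]
  have hmul : ∀ a b : H S l, Soc a → Soc b → a * b = 0 := by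
    rintro a b ⟨h1, h2, h3, h4, h5, h6, h7⟩ ⟨k1, k2, k3, k4, k5, k6, k7⟩
    ext <;> simp [*]
  have hED : ∀ a b : H S l, Soc a → Soc b → D.E a * (D.φ b - D.ι b) = 0 := by
    rintro a b ⟨h1, h2, h3, h4, h5, h6, h7⟩ ⟨k1, k2, k3, k4, k5, k6, k7⟩
    rw [hE, hi, hf]
    ext <;> simp [baseMap'_apply, euler_apply, *]
  obtain ⟨a1, b1⟩ := good_Q D Soc h0 hneg hadd hmul hED n hn3 (uu m) (-X)
    (by ext <;> simp [uu, X]) (by ext <;> simp [uu, X])
    (by rw [hE, hi]; ext <;> simp [baseMap'_apply, euler_apply, uu, X])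
    (by simp [Soc, uu, X]) (cc (φ₀ m - ι₀ m))
    (by rw [hE, hE, hi, hi, hf, hf]; ext <;> simp [baseMap'_apply, euler_apply, uu, X, cc])
  obtain ⟨a2, b2⟩ := good_Q D Soc h0 hneg hadd hmul hED n hn3 (vv m) (-Y)
    (by ext <;> simp [vv, Y]) (by ext <;> simp [vv, Y])
    (by rw [hE, hi]; ext <;> simp [baseMap'_apply, euler_apply, vv, Y])
    (by simp [Soc, vv, Y]) (cc (φ₀ m - ι₀ m))
    (by rw [hE, hE, hi, hi, hf, hf]; ext <;> simp [baseMap'_apply, euler_apply, vv, Y, cc])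
  obtain ⟨a3, b3⟩ := good_Q D Soc h0 hneg hadd hmul hED n hn3 (ww m) (-Z)
    (by ext <;> simp [ww, Z]) (by ext <;> simp [ww, Z])
    (by rw [hE, hi]; ext <;> simp [baseMap'_apply, euler_apply, ww, Z])
    (by simp [Soc, ww, Z]) (cc (φ₀ m - ι₀ m))
    (by rw [hE, hE, hi, hi, hf, hf]; ext <;> simp [baseMap'_apply, euler_apply, ww, Z, cc])
  obtain ⟨a4, b4⟩ := D.good_mul Soc hadd hmul hED _ _ a1 a2
  obtain ⟨a5, b5⟩ := D.good_mul Soc hadd hmul hED _ _ a4 a3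
  rw [hn, b4, b1, b2, b3, Datum.Ext.one_t] at b5
  have h := congrArg H.c b5
  apply h9
  have e : (3 * cc (φ₀ m - ι₀ m) + 3 * cc (φ₀ m - ι₀ m) + 3 * cc (φ₀ m - ι₀ m) : H T₀ l₀) =
      algebraMap T₀ _ 9 * cc (φ₀ m - ι₀ m) := by
    rw [map_ofNat]
    ring
  rw [e] at h
  simpa [cc] using h.symm

end datum

end H

end Pool.Agent.Lib.MP_51ebc3_al
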