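import Mathlib

set_option autoImplicit false

/-!
# Derivations of the `p`-adic numbers
-/

open scoped IntermediateField.algebraAdjoinAdjoin TensorProduct Cardinal
open Algebra

namespace Pool.Agent.Lib.MP_51ebc3_al

section general

variable {K L ι : Type*} [Field K] [Field L] [Algebra K L] [CharZero K]

lemma formallyEtale_of_basis {v : ι → L} (hv : IsTranscendenceBasis K v) :
    letI := (MvPolynomial.aeval (R := K) v).toAlgebra
    Algebra.FormallyEtale (MvPolynomial ι K) L := by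
  let := (MvPolynomial.aeval (R := K) v).toAlgebra
  let : Algebra (MvPolynomial ι K) (adjoin K (Set.range v)) :=
    hv.1.aevalEquiv.toRingEquiv.toRingHom.toAlgebra
  have h1 : Algebra.FormallyEtale (MvPolynomial ι K) (adjoin K (Set.range v)) := by
    refine Algebra.FormallyEtale.of_equiv (A := MvPolynomial ι K) ?_
    exact { hv.1.aevalEquiv with commutes' := fun r => rfl }
  have : IsScalarTower (MvPolynomial ι K) (adjoin K (Set.range v)) L := by
    refine IsScalarTower.of_algebraMap_eq fun r => ?_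
    change _ = ((hv.1.aevalEquiv r : adjoin K (Set.range v)) : L)
    rw [AlgebraicIndependent.aevalEquiv_apply_coe]
    rfl
  have h2 : Algebra.FormallyEtale (adjoin K (Set.range v))
      (IntermediateField.adjoin K (Set.range v)) :=
    .of_isLocalization (nonZeroDivisors _)
  have h3 : Algebra.IsAlgebraic (IntermediateField.adjoin K (Set.range v)) L :=
    hv.isAlgebraic_field
  have : CharZero (IntermediateField.adjoin K (Set.range v)) :=
    charZero_of_injective_algebraMap (algebraMap K _).injective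
  have h4 : Algebra.FormallyEtale (IntermediateField.adjoin K (Set.range v)) L :=
    Algebra.FormallyEtale.of_isSeparable _ L
  have h5 : Algebra.FormallyEtale (adjoin K (Set.range v)) L :=
    .comp _ (IntermediateField.adjoin K (Set.range v)) _
  exact .comp _ (adjoin K (Set.range v)) _

/-- A field extension of characteristic zero which is not algebraic has a non-zero derivation. -/
lemma exists_derivation_ne_zero (h : ¬ Algebra.IsAlgebraic K L) :
    ∃ d : Derivation K L L, ∃ y : L, d y ≠ 0 := by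
  obtain ⟨s, hs⟩ := exists_isTranscendenceBasis K L
  have hne : Nonempty s := by
    by_contra hn
    rw [not_nonempty_iff] at hn
    exact h (hs.isEmpty_iff_isAlgebraic.mp hn)
  obtain ⟨i⟩ := hne
  let := (MvPolynomial.aeval (R := K) ((↑) : s → L)).toAlgebra
  have hE : Algebra.FormallyEtale (MvPolynomial s K) L := formallyEtale_of_basis hs
  have : IsScalarTower K (MvPolynomial s K) L :=
    IsScalarTower.of_algebraMap_eq fun r => by
      change _ = MvPolynomial.aeval (R := K) ((↑) : s → L) _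
      simp
  classical
  let D₀ : Derivation K (MvPolynomial s K) L :=
    MvPolynomial.mkDerivation K (fun j => if j = i then 1 else 0)
  let e := KaehlerDifferential.tensorKaehlerEquivOfFormallyEtale K (MvPolynomial s K) L
  let f : Ω[L⁄K] →ₗ[L] L := (LinearMap.liftBaseChange L D₀.liftKaehlerDifferential) ∘ₗ
    e.symm.toLinearMap
  refine ⟨f.compDer (KaehlerDifferential.D K L), algebraMap (MvPolynomial s K) L
    (MvPolynomial.X i), ?_⟩
  have : (f.compDer (KaehlerDifferential.D K L)) (algebraMap (MvPolynomial s K) L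
    (MvPolynomial.X i)) = 1 := by
    change LinearMap.liftBaseChange L D₀.liftKaehlerDifferential (e.symm
      (KaehlerDifferential.D K L (algebraMap (MvPolynomial s K) L (MvPolynomial.X i)))) = 1
    rw [KaehlerDifferential.tensorKaehlerEquivOfFormallyEtale_symm_D_algebraMap]
    simp [D₀]
  rw [this]
  exact one_ne_zero

end general

section padic

variable (p : ℕ) [hp : Fact p.Prime]

lemma not_isAlgebraic_padic : ¬ Algebra.IsAlgebraic ℚ ℚ_[p] := by
  intro h
  have h1 : #ℚ_[p] ≤ max #ℚ ℵ₀ := Algebra.IsAlgebraic.cardinalMk_le_max ℚ ℚ_[p]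
  have h2 : 𝔠 ≤ #ℚ_[p] := continuum_le_cardinal_of_nontriviallyNormedField ℚ_[p]
  rw [Cardinal.mkRat, max_self] at h1
  exact absurd (h2.trans h1) (not_le.mpr Cardinal.aleph0_lt_continuum)

/-- There are a derivation `d` of `ℚ_p` and `m ∈ ℤ_p` with `d m = p⁻³`. -/
lemma exists_derivation_padic :
    ∃ (d : Derivation ℚ ℚ_[p] ℚ_[p]) (m : ℤ_[p]), d (m : ℚ_[p]) = ((p : ℚ_[p]) ^ 3)⁻¹ := by
  obtain ⟨d, y, hy⟩ := exists_derivation_ne_zero (not_isAlgebraic_padic p)
  have hp0 : (p : ℚ_[p]) ≠ 0 := Nat.cast_ne_zero.mpr hp.out.ne_zero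
  obtain ⟨k, hk⟩ : ∃ k : ℕ, ‖(p : ℚ_[p]) ^ k * y‖ ≤ 1 := by
    have hlt : ‖(p : ℚ_[p])‖ < 1 := by
      rw [Padic.norm_p]
      exact inv_lt_one_of_one_lt₀ (Nat.one_lt_cast.mpr hp.out.one_lt)
    obtain ⟨k, hk⟩ := exists_pow_lt_of_lt_one (x := (‖y‖ + 1)⁻¹) (by positivity) hlt
    refine ⟨k, ?_⟩
    rw [norm_mul, norm_pow]
    have h1 : ‖(p : ℚ_[p])‖ ^ k * ‖y‖ ≤ (‖y‖ + 1)⁻¹ * (‖y‖ + 1) := by
      apply mul_le_mul hk.le (by linarith) (norm_nonneg _) (by positivity)
    rwa [inv_mul_cancel₀ (by positivity)] at h1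
  set m : ℤ_[p] := ⟨(p : ℚ_[p]) ^ k * y, hk⟩ with hm
  have hdm : d (m : ℚ_[p]) ≠ 0 := by
    have h1 : (m : ℚ_[p]) = (p : ℚ_[p]) ^ k * y := rfl
    have h2 : d ((p : ℚ_[p]) ^ k) = 0 := by
      have : ((p : ℚ_[p]) ^ k) = algebraMap ℚ ℚ_[p] ((p : ℚ) ^ k) := by simp
      rw [this, Derivation.map_algebraMap]
    rw [h1, Derivation.leibniz, h2, smul_zero, add_zero, smul_eq_mul]
    exact mul_ne_zero (pow_ne_zero _ hp0) hy
  refine ⟨(((p : ℚ_[p]) ^ 3)⁻¹ * (d (m : ℚ_[p]))⁻¹) • d, m, ?_⟩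
  rw [Derivation.smul_apply, smul_eq_mul, mul_assoc, inv_mul_cancel₀ hdm, mul_one]

lemma nine_not_mem (z : ℤ_[p]) : (z : ℚ_[p]) ≠ 9 * ((p : ℚ_[p]) ^ 3)⁻¹ := by
  intro h
  have hp0 : (p : ℚ_[p]) ≠ 0 := Nat.cast_ne_zero.mpr hp.out.ne_zero
  have h1 : (p : ℚ_[p]) ^ 3 * z = 9 := by
    rw [h]; field_simp
  have h2 : (p : ℤ_[p]) ^ 3 * z = 9 := by
    apply Subtype.ext
    push_cast
    exact h1
  have h3 : ((9 : ℤ) : ℤ_[p]) ∈ (Ideal.span {(p : ℤ_[p]) ^ 3} : Ideal ℤ_[p]) := by
    rw [Ideal.mem_span_singleton]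
    exact ⟨z, by push_cast; exact h2.symm⟩
  rw [← PadicInt.norm_le_pow_iff_mem_span_pow, PadicInt.norm_int_le_pow_iff_dvd] at h3
  have h4 : (p ^ 3 : ℕ) ∣ 9 := by exact_mod_cast h3
  have h5 := Nat.le_of_dvd (by norm_num) h4
  have h6 := hp.out.two_le
  have h7 : p < 3 := by
    by_contra h8
    push Not at h8
    have : 3 ^ 3 ≤ p ^ 3 := Nat.pow_le_pow_left h8 3
    omega
  have h8 : p = 2 := by omega
  subst h8
  norm_num at h4

end padic

end Pool.Agent.Lib.MP_51ebc3_al
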