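import Pool.Agent.Lib.MP_51ebc3_al.InK2
import Pool.Agent.Lib.MP_51ebc3_al.NonVanish
import Pool.Agent.Lib.MP_51ebc3_al.Padic

set_option autoImplicit false

/-!
# The counterexample
-/

open IsLocalRing

namespace Pool.Agent.Lib.MP_51ebc3_al

/-- The square-zero extension of a commutative ring by a module. -/
@[ext]
structure SqZ (S N : Type*) where
  /-- ring part -/
  r : S
  /-- module part -/
  m : N

namespace SqZ

set_option linter.unusedSectionVars false

variable {S N : Type*} [CommRing S] [AddCommGroup N] [Module S N]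

instance : Zero (SqZ S N) := ⟨⟨0, 0⟩⟩
instance : One (SqZ S N) := ⟨⟨1, 0⟩⟩
instance : Add (SqZ S N) := ⟨fun a b => ⟨a.r + b.r, a.m + b.m⟩⟩
instance : Neg (SqZ S N) := ⟨fun a => ⟨-a.r, -a.m⟩⟩
instance : Mul (SqZ S N) := ⟨fun a b => ⟨a.r * b.r, a.r • b.m + b.r • a.m⟩⟩

@[simp] lemma zero_r : (0 : SqZ S N).r = 0 := rfl
@[simp] lemma zero_m : (0 : SqZ S N).m = 0 := rfl
@[simp] lemma one_r : (1 : SqZ S N).r = 1 := rfl
@[simp] lemma one_m : (1 : SqZ S N).m = 0 := rfl
@[simp] lemma add_r (a b : SqZ S N) : (a + b).r = a.r + b.r := rfl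
@[simp] lemma add_m (a b : SqZ S N) : (a + b).m = a.m + b.m := rfl
@[simp] lemma neg_r (a : SqZ S N) : (-a).r = -a.r := rfl
@[simp] lemma neg_m (a : SqZ S N) : (-a).m = -a.m := rfl
@[simp] lemma mul_r (a b : SqZ S N) : (a * b).r = a.r * b.r := rfl
@[simp] lemma mul_m (a b : SqZ S N) : (a * b).m = a.r • b.m + b.r • a.m := rfl

instance : CommRing (SqZ S N) where
  add_assoc a b c := by ext <;> simp [add_assoc]
  zero_add a := by ext <;> simp
  add_zero a := by ext <;> simp
  add_comm a b := by ext <;> simp [add_comm]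
  neg_add_cancel a := by ext <;> simp
  mul_assoc a b c := by
    ext
    · simp [mul_assoc]
    · simp only [mul_m, mul_r]
      module
  one_mul a := by ext <;> simp
  mul_one a := by ext <;> simp
  left_distrib a b c := by
    ext
    · simp [mul_add]
    · simp only [mul_m, add_m, add_r]
      module
  right_distrib a b c := by
    ext
    · simp [add_mul]
    · simp only [mul_m, add_m, add_r]
      module
  zero_mul a := by ext <;> simp
  mul_zero a := by ext <;> simp
  mul_comm a b := by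
    ext
    · simp [mul_comm]
    · simp only [mul_m]
      abel
  nsmul := nsmulRec
  zsmul := zsmulRec

/-- The inclusion. -/
def inl : S →+* SqZ S N where
  toFun s := ⟨s, 0⟩
  map_one' := rfl
  map_zero' := rfl
  map_mul' a b := by ext <;> simp
  map_add' a b := by ext <;> simp

lemma inl_apply (s : S) : (inl s : SqZ S N) = ⟨s, 0⟩ := rfl

end SqZ

variable (p : ℕ) [hp : Fact p.Prime]

/-- The quotient module `ℚ_p / ℤ_p`. -/
abbrev QZ : Type _ := ℚ_[p] ⧸ LinearMap.range (Algebra.linearMap ℤ_[p] ℚ_[p])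

/-- The second ring homomorphism `s ↦ s + d(s) ε`. -/
noncomputable def phi (d : Derivation ℚ ℚ_[p] ℚ_[p]) : ℤ_[p] →+* SqZ ℤ_[p] (QZ p) where
  toFun s := ⟨s, Submodule.Quotient.mk (d (s : ℚ_[p]))⟩
  map_one' := by ext <;> simp
  map_zero' := by ext <;> simp
  map_mul' a b := by
    ext
    · simp
    · simp only [SqZ.mul_m, ← Submodule.Quotient.mk_smul, ← Submodule.Quotient.mk_add]
      congr 1
      rw [PadicInt.coe_mul, Derivation.leibniz]
      rfl
  map_add' a b := by
    ext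
    · simp
    · simp only [SqZ.add_m, ← Submodule.Quotient.mk_add]
      congr 1
      rw [PadicInt.coe_add, map_add]

lemma phi_apply (d : Derivation ℚ ℚ_[p] ℚ_[p]) (s : ℤ_[p]) :
    phi p d s = ⟨s, Submodule.Quotient.mk (d (s : ℚ_[p]))⟩ := rfl

lemma mk_eq_zero_iff (y : ℚ_[p]) :
    (Submodule.Quotient.mk y : QZ p) = 0 ↔ ∃ z : ℤ_[p], (z : ℚ_[p]) = y := by
  rw [Submodule.Quotient.mk_eq_zero, LinearMap.mem_range]
  rfl

/-- Non-vanishing of the class. -/
lemma XX_padic_ne_one (d : Derivation ℚ ℚ_[p] ℚ_[p]) (m : ℤ_[p])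
    (hd : d (m : ℚ_[p]) = ((p : ℚ_[p]) ^ 3)⁻¹) :
    (H.XX m : St (H ℤ_[p] ((p : ℤ_[p]) ^ 3 * m))) ≠ 1 := by
  have hp0 : (p : ℚ_[p]) ≠ 0 := Nat.cast_ne_zero.mpr hp.out.ne_zero
  refine H.XX_ne_one (SqZ.inl : ℤ_[p] →+* SqZ ℤ_[p] (QZ p)) (phi p d)
    (l₀ := SqZ.inl ((p : ℤ_[p]) ^ 3 * m)) rfl ?_ ?_ m ?_
  · rw [phi_apply, SqZ.inl_apply]
    ext
    · rfl
    · change (Submodule.Quotient.mk _ : QZ p) = 0
      rw [mk_eq_zero_iff]
      refine ⟨1, ?_⟩
      have h1 : d ((p : ℚ_[p]) ^ 3) = 0 := by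
        have : ((p : ℚ_[p]) ^ 3) = algebraMap ℚ ℚ_[p] ((p : ℚ) ^ 3) := by simp
        rw [this, Derivation.map_algebraMap]
      push_cast
      rw [Derivation.leibniz, h1, smul_zero, add_zero, hd, smul_eq_mul]
      field_simp
  · intro s t
    rw [sub_eq_add_neg, sub_eq_add_neg]
    ext <;> simp [phi_apply, SqZ.inl_apply]
  · intro h
    have h1 := congrArg SqZ.m h
    have h2 : (9 : SqZ ℤ_[p] (QZ p)) = SqZ.inl 9 := by rw [map_ofNat]
    rw [h2, sub_eq_add_neg] at h1
    simp only [SqZ.mul_m, SqZ.add_m, SqZ.neg_m, phi_apply, SqZ.inl_apply, SqZ.zero_m, neg_zero,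
      add_zero, smul_zero, ← Submodule.Quotient.mk_smul] at h1
    rw [mk_eq_zero_iff, hd] at h1
    obtain ⟨z, hz⟩ := h1
    refine nine_not_mem p z ?_
    rw [hz]
    rfl

section vanishing

variable {p}

open H

section natCast

variable {S : Type*} [CommRing S] {l : S} (n : ℕ)

lemma natCast_eq : ((n : ℕ) : H S l) = algebraMap S (H S l) (n : S) := by rw [map_natCast]

@[simp] lemma natCast_a : ((n : ℕ) : H S l).a = n := by rw [natCast_eq]; rfl
@[simp] lemma natCast_x : ((n : ℕ) : H S l).x = 0 := by rw [natCast_eq]; rfl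
@[simp] lemma natCast_y : ((n : ℕ) : H S l).y = 0 := by rw [natCast_eq]; rfl
@[simp] lemma natCast_z : ((n : ℕ) : H S l).z = 0 := by rw [natCast_eq]; rfl
@[simp] lemma natCast_u : ((n : ℕ) : H S l).u = 0 := by rw [natCast_eq]; rfl
@[simp] lemma natCast_v : ((n : ℕ) : H S l).v = 0 := by rw [natCast_eq]; rfl
@[simp] lemma natCast_w : ((n : ℕ) : H S l).w = 0 := by rw [natCast_eq]; rfl
@[simp] lemma natCast_c : ((n : ℕ) : H S l).c = 0 := by rw [natCast_eq]; rfl

end natCast

lemma XX_mem_K2 {S : Type*} [CommRing S] {l : S} (m : S) : (XX m : St (H S l)) ∈ K2 (H S l) := by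
  refine mul_mem (mul_mem (Q_mem_K2 _ _ ?_ ?_) (Q_mem_K2 _ _ ?_ ?_)) (Q_mem_K2 _ _ ?_ ?_)
  · ext <;> simp [uu, X]
  · ext <;> simp [uu, X]
  · ext <;> simp [vv, Y]
  · ext <;> simp [vv, Y]
  · ext <;> simp [ww, Z]
  · ext <;> simp [ww, Z]

/-- The class vanishes after a ring homomorphism which identifies `m` with a natural number. -/
lemma map_XX_eq_one_of_nat {S B : Type*} [CommRing S] [CommRing B] {l : S} (m : S) (n : ℕ)
    (f : H S l →+* B) (hf : f (algebraMap S (H S l) (m - n)) = 0) : St.map f (XX m) = 1 := by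
  have h1 : f (uu m) = n * (f Y * f Z) := by
    have : (uu m : H S l) = algebraMap S (H S l) (m - n) * (Y * Z) + (n : H S l) * (Y * Z) := by
      ext <;> simp [uu, Y, Z]
    rw [this, map_add, map_mul, hf, zero_mul, zero_add, map_mul, map_mul, map_natCast]
  have h2 : f (vv m) = n * (f X * f Z) := by
    have : (vv m : H S l) = algebraMap S (H S l) (m - n) * (X * Z) + (n : H S l) * (X * Z) := by
      ext <;> simp [vv, X, Z]
    rw [this, map_add, map_mul, hf, zero_mul, zero_add, map_mul, map_mul, map_natCast]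
  have h3 : f (ww m) = n * (f X * f Y) := by
    have : (ww m : H S l) = algebraMap S (H S l) (m - n) * (X * Y) + (n : H S l) * (X * Y) := by
      ext <;> simp [ww, X, Y]
    rw [this, map_add, map_mul, hf, zero_mul, zero_add, map_mul, map_mul, map_natCast]
  rw [XX, map_mul, map_mul, map_Q, map_Q, map_Q, map_neg, map_neg, map_neg, h1, h2, h3]
  refine Q_prod_eq_one n (f X) (f Y) (f Z) ?_ ?_ ?_ <;> rw [← map_mul, ← map_mul, ← map_mul]
  · have : (X * Y * Z * X : H S l) = 0 := by ext <;> simp [X, Y, Z]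
    rw [this, map_zero]
  · have : (X * Y * Z * Y : H S l) = 0 := by ext <;> simp [X, Y, Z]
    rw [this, map_zero]
  · have : (X * Y * Z * Z : H S l) = 0 := by ext <;> simp [X, Y, Z]
    rw [this, map_zero]

/-- The class vanishes after a ring homomorphism which makes `N` invertible, if `l = N m`. -/
lemma map_XX_eq_one_of_isUnit {S B : Type*} [CommRing S] [CommRing B] {l : S} (m : S) (N : ℕ)
    (hl : l = N * m) (f : H S l →+* B) (hN : IsUnit (N : B)) : St.map f (XX m) = 1 := by
  rw [XX, map_mul, map_mul, map_Q, map_Q, map_Q, map_neg, map_neg, map_neg]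
  rw [Q_eq_one N hN, Q_eq_one N hN, Q_eq_one N hN, one_mul, one_mul]
  · rw [← map_natCast f, ← map_mul, ← map_mul]
    congr 1
    ext <;> simp [ww, Z, hl]
  · rw [← map_pow, pow_four_eq_zero _ rfl, map_zero]
  · rw [← map_natCast f, ← map_mul, ← map_mul]
    congr 1
    ext <;> simp [vv, Y, hl]
  · rw [← map_pow, pow_four_eq_zero _ rfl, map_zero]
  · rw [← map_natCast f, ← map_mul, ← map_mul]
    congr 1
    ext <;> simp [uu, X, hl]
  · rw [← map_pow, pow_four_eq_zero _ rfl, map_zero]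

lemma isUnit_toFrac {S : Type*} [CommRing S] [IsDomain S] {l : S} (s : S) (hs : s ≠ 0) :
    IsUnit (toFrac (H S l) (algebraMap S (H S l) s)) := by
  rw [Pi.isUnit_iff]
  intro P
  change IsUnit (algebraMap (H S l) (Localization.AtPrime P.1) (algebraMap S (H S l) s))
  have hP : algebraMap S (H S l) s ∉ P.1 := by
    intro h
    have h1 : RingHom.ker (proj : H S l →+* S) ≤ P.1 := by
      intro r hr
      have h2 : r ^ 4 ∈ P.1 := by rw [pow_four_eq_zero r hr]; exact P.1.zero_mem
      exact (inferInstance : P.1.IsPrime).mem_of_pow_mem 4 h2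
    have h3 : P.1 ≤ RingHom.ker (proj : H S l →+* S) := by
      have h4 : IsMinimalPrime P.1 := P.2
      exact h4.le_of_le ⟨RingHom.ker_isPrime _, bot_le⟩ h1
    exact hs (h3 h)
  exact IsLocalization.map_units (Localization.AtPrime P.1)
    (⟨_, hP⟩ : P.1.primeCompl)

end vanishing

end Pool.Agent.Lib.MP_51ebc3_al
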