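import Mathlib

set_option autoImplicit false

/-!
# The Gorenstein algebra of the Hesse cubic

`H S l` is the free `S`-module with basis `1, X, Y, Z, U, V, W, C`, with the commutative
multiplication determined by `X² = l U`, `Y² = l V`, `Z² = l W`, `YZ = U`, `XZ = V`, `XY = W`,
`XU = YV = ZW = C`, all other products of two basis elements different from `1` being zero.
-/

namespace Pool.Agent.Lib.MP_51ebc3_al

/-- The algebra `S[X, Y, Z]/(X² - lYZ, Y² - lXZ, Z² - lXY, X²Y, X²Z, Y²X, Y²Z, Z²X, Z²Y, deg ≥ 4)`,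
in coordinates. -/
@[ext]
structure H (S : Type*) (l : S) where
  /-- coordinate at `1` -/
  a : S
  /-- coordinate at `X` -/
  x : S
  /-- coordinate at `Y` -/
  y : S
  /-- coordinate at `Z` -/
  z : S
  /-- coordinate at `U = YZ` -/
  u : S
  /-- coordinate at `V = XZ` -/
  v : S
  /-- coordinate at `W = XY` -/
  w : S
  /-- coordinate at `C = XYZ` -/
  c : S

namespace H

variable {S : Type*} [CommRing S] {l : S}

instance : Zero (H S l) := ⟨⟨0, 0, 0, 0, 0, 0, 0, 0⟩⟩
instance : One (H S l) := ⟨⟨1, 0, 0, 0, 0, 0, 0, 0⟩⟩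
instance : Add (H S l) := ⟨fun r s => ⟨r.a + s.a, r.x + s.x, r.y + s.y, r.z + s.z, r.u + s.u,
  r.v + s.v, r.w + s.w, r.c + s.c⟩⟩
instance : Neg (H S l) := ⟨fun r => ⟨-r.a, -r.x, -r.y, -r.z, -r.u, -r.v, -r.w, -r.c⟩⟩
instance : Sub (H S l) := ⟨fun r s => ⟨r.a - s.a, r.x - s.x, r.y - s.y, r.z - s.z, r.u - s.u,
  r.v - s.v, r.w - s.w, r.c - s.c⟩⟩
instance : SMul S (H S l) := ⟨fun t r => ⟨t * r.a, t * r.x, t * r.y, t * r.z, t * r.u, t * r.v,
  t * r.w, t * r.c⟩⟩
instance : Mul (H S l) := ⟨fun r s =>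
  ⟨r.a * s.a,
   r.a * s.x + r.x * s.a,
   r.a * s.y + r.y * s.a,
   r.a * s.z + r.z * s.a,
   r.a * s.u + r.u * s.a + (l * (r.x * s.x) + r.y * s.z + r.z * s.y),
   r.a * s.v + r.v * s.a + (l * (r.y * s.y) + r.x * s.z + r.z * s.x),
   r.a * s.w + r.w * s.a + (l * (r.z * s.z) + r.x * s.y + r.y * s.x),
   r.a * s.c + r.c * s.a + (r.x * s.u + r.u * s.x) + (r.y * s.v + r.v * s.y) +
     (r.z * s.w + r.w * s.z)⟩⟩

@[simp] lemma zero_a : (0 : H S l).a = 0 := rfl
@[simp] lemma zero_x : (0 : H S l).x = 0 := rfl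
@[simp] lemma zero_y : (0 : H S l).y = 0 := rfl
@[simp] lemma zero_z : (0 : H S l).z = 0 := rfl
@[simp] lemma zero_u : (0 : H S l).u = 0 := rfl
@[simp] lemma zero_v : (0 : H S l).v = 0 := rfl
@[simp] lemma zero_w : (0 : H S l).w = 0 := rfl
@[simp] lemma zero_c : (0 : H S l).c = 0 := rfl
@[simp] lemma one_a : (1 : H S l).a = 1 := rfl
@[simp] lemma one_x : (1 : H S l).x = 0 := rfl
@[simp] lemma one_y : (1 : H S l).y = 0 := rfl
@[simp] lemma one_z : (1 : H S l).z = 0 := rfl
@[simp] lemma one_u : (1 : H S l).u = 0 := rfl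
@[simp] lemma one_v : (1 : H S l).v = 0 := rfl
@[simp] lemma one_w : (1 : H S l).w = 0 := rfl
@[simp] lemma one_c : (1 : H S l).c = 0 := rfl

section
variable (r s : H S l) (t : S)
@[simp] lemma add_a : (r + s).a = r.a + s.a := rfl
@[simp] lemma add_x : (r + s).x = r.x + s.x := rfl
@[simp] lemma add_y : (r + s).y = r.y + s.y := rfl
@[simp] lemma add_z : (r + s).z = r.z + s.z := rfl
@[simp] lemma add_u : (r + s).u = r.u + s.u := rfl
@[simp] lemma add_v : (r + s).v = r.v + s.v := rfl
@[simp] lemma add_w : (r + s).w = r.w + s.w := rfl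
@[simp] lemma add_c : (r + s).c = r.c + s.c := rfl
@[simp] lemma neg_a : (-r).a = -r.a := rfl
@[simp] lemma neg_x : (-r).x = -r.x := rfl
@[simp] lemma neg_y : (-r).y = -r.y := rfl
@[simp] lemma neg_z : (-r).z = -r.z := rfl
@[simp] lemma neg_u : (-r).u = -r.u := rfl
@[simp] lemma neg_v : (-r).v = -r.v := rfl
@[simp] lemma neg_w : (-r).w = -r.w := rfl
@[simp] lemma neg_c : (-r).c = -r.c := rfl
@[simp] lemma sub_a : (r - s).a = r.a - s.a := rfl
@[simp] lemma sub_x : (r - s).x = r.x - s.x := rfl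
@[simp] lemma sub_y : (r - s).y = r.y - s.y := rfl
@[simp] lemma sub_z : (r - s).z = r.z - s.z := rfl
@[simp] lemma sub_u : (r - s).u = r.u - s.u := rfl
@[simp] lemma sub_v : (r - s).v = r.v - s.v := rfl
@[simp] lemma sub_w : (r - s).w = r.w - s.w := rfl
@[simp] lemma sub_c : (r - s).c = r.c - s.c := rfl
@[simp] lemma smul_a : (t • r).a = t * r.a := rfl
@[simp] lemma smul_x : (t • r).x = t * r.x := rfl
@[simp] lemma smul_y : (t • r).y = t * r.y := rfl
@[simp] lemma smul_z : (t • r).z = t * r.z := rfl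
@[simp] lemma smul_u : (t • r).u = t * r.u := rfl
@[simp] lemma smul_v : (t • r).v = t * r.v := rfl
@[simp] lemma smul_w : (t • r).w = t * r.w := rfl
@[simp] lemma smul_c : (t • r).c = t * r.c := rfl
@[simp] lemma mul_a : (r * s).a = r.a * s.a := rfl
@[simp] lemma mul_x : (r * s).x = r.a * s.x + r.x * s.a := rfl
@[simp] lemma mul_y : (r * s).y = r.a * s.y + r.y * s.a := rfl
@[simp] lemma mul_z : (r * s).z = r.a * s.z + r.z * s.a := rfl
@[simp] lemma mul_u : (r * s).u =
  r.a * s.u + r.u * s.a + (l * (r.x * s.x) + r.y * s.z + r.z * s.y) := rfl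
@[simp] lemma mul_v : (r * s).v =
  r.a * s.v + r.v * s.a + (l * (r.y * s.y) + r.x * s.z + r.z * s.x) := rfl
@[simp] lemma mul_w : (r * s).w =
  r.a * s.w + r.w * s.a + (l * (r.z * s.z) + r.x * s.y + r.y * s.x) := rfl
@[simp] lemma mul_c : (r * s).c =
  r.a * s.c + r.c * s.a + (r.x * s.u + r.u * s.x) + (r.y * s.v + r.v * s.y) +
     (r.z * s.w + r.w * s.z) := rfl
end

instance : CommRing (H S l) where
  add_assoc r s t := by ext <;> simp <;> ring
  zero_add r := by ext <;> simp
  add_zero r := by ext <;> simp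
  add_comm r s := by ext <;> simp <;> ring
  neg_add_cancel r := by ext <;> simp
  sub_eq_add_neg r s := by ext <;> simp <;> ring
  mul_assoc r s t := by ext <;> simp <;> ring
  one_mul r := by ext <;> simp
  mul_one r := by ext <;> simp
  left_distrib r s t := by ext <;> simp <;> ring
  right_distrib r s t := by ext <;> simp <;> ring
  zero_mul r := by ext <;> simp
  mul_zero r := by ext <;> simp
  mul_comm r s := by ext <;> simp <;> ring
  nsmul := nsmulRec
  zsmul := zsmulRec

instance : Algebra S (H S l) where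
  algebraMap :=
    { toFun := fun t => ⟨t, 0, 0, 0, 0, 0, 0, 0⟩
      map_one' := rfl
      map_zero' := rfl
      map_mul' := fun s t => by ext <;> simp
      map_add' := fun s t => by ext <;> simp }
  commutes' := fun t r => mul_comm _ _
  smul_def' := fun t r => by ext <;> simp

@[simp] lemma algebraMap_a (t : S) : (algebraMap S (H S l) t).a = t := rfl
@[simp] lemma algebraMap_x (t : S) : (algebraMap S (H S l) t).x = 0 := rfl
@[simp] lemma algebraMap_y (t : S) : (algebraMap S (H S l) t).y = 0 := rfl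
@[simp] lemma algebraMap_z (t : S) : (algebraMap S (H S l) t).z = 0 := rfl
@[simp] lemma algebraMap_u (t : S) : (algebraMap S (H S l) t).u = 0 := rfl
@[simp] lemma algebraMap_v (t : S) : (algebraMap S (H S l) t).v = 0 := rfl
@[simp] lemma algebraMap_w (t : S) : (algebraMap S (H S l) t).w = 0 := rfl
@[simp] lemma algebraMap_c (t : S) : (algebraMap S (H S l) t).c = 0 := rfl

/-- Change of the base ring. -/
def baseMap {T : Type*} [CommRing T] (f : S →+* T) : H S l →+* H T (f l) where
  toFun r := ⟨f r.a, f r.x, f r.y, f r.z, f r.u, f r.v, f r.w, f r.c⟩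
  map_one' := by ext <;> simp
  map_zero' := by ext <;> simp
  map_mul' r s := by ext <;> simp
  map_add' r s := by ext <;> simp

/-- The coordinates as a linear equivalence with `Fin 8 → S`. -/
def coord : H S l ≃ₗ[S] (Fin 8 → S) where
  toFun r := ![r.a, r.x, r.y, r.z, r.u, r.v, r.w, r.c]
  invFun f := ⟨f 0, f 1, f 2, f 3, f 4, f 5, f 6, f 7⟩
  map_add' r s := by ext i; fin_cases i <;> rfl
  map_smul' t r := by ext i; fin_cases i <;> rfl
  left_inv r := rfl
  right_inv f := by ext i; fin_cases i <;> rfl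

instance : Module.Free S (H S l) := Module.Free.of_equiv coord.symm
instance : Module.Finite S (H S l) := Module.Finite.equiv coord.symm

/-- The projection to the base ring. -/
def proj : H S l →+* S where
  toFun r := r.a
  map_one' := rfl
  map_zero' := rfl
  map_mul' _ _ := rfl
  map_add' _ _ := rfl

lemma proj_apply (r : H S l) : proj r = r.a := rfl

end H

end Pool.Agent.Lib.MP_51ebc3_al
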