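import Pool.Agent.Lib.MP_51ebc3_al.Vanish

set_option autoImplicit false

/-!
# The elements `Q(η, s)` lie in `K₂`
-/

open scoped commutatorElement

namespace Pool.Agent.Lib.MP_51ebc3_al

variable {R : Type*} [CommRing R]

lemma unitMap_zero (i j : ℕ) : unitMap i j (0 : R) = 0 := by
  rw [unitMap, zero_smul]

lemma unitMap_cancel (i j : ℕ) (a : R) : unitMap i j a + unitMap i j (-a) = 0 := by
  rw [← unitMap_add, add_neg_cancel, unitMap_zero]

lemma elem_inv_val (i j : ℕ) (h : i ≠ j) (a : R) :
    ((elem i j h a)⁻¹).val = 1 + unitMap i j (-a) := rfl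

lemma toGL_theta_val (i j : ℕ) (h : i ≠ j) (η s : R) (h1 : η * s * η = 0) (h2 : η * s * s = 0) :
    (toGL R (theta i j h η s)).val = 1 + unitMap i i (η * s) + unitMap j j (-(η * s)) := by
  rw [theta, map_commutatorElement, toGL_x, toGL_x, commutatorElement_def]
  simp only [Units.val_mul, elem_val, elem_inv_val]
  have e1 : (1 + unitMap i j η) * (1 + unitMap j i s) =
      1 + unitMap i j η + unitMap j i s + unitMap i i (η * s) := by
    simp only [mul_add, add_mul, mul_one, one_mul, unitMap_mul]
    abel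
  have e2 : (1 + unitMap i j (-η)) * (1 + unitMap j i (-s)) =
      1 + unitMap i j (-η) + unitMap j i (-s) + unitMap i i (η * s) := by
    simp only [mul_add, add_mul, mul_one, one_mul, unitMap_mul, neg_mul_neg]
    abel
  have e3 : (1 + unitMap i j η) * (1 + unitMap j i s) * (1 + unitMap i j (-η)) *
      (1 + unitMap j i (-s)) = (1 + unitMap i j η) * (1 + unitMap j i s) *
        ((1 + unitMap i j (-η)) * (1 + unitMap j i (-s))) := by
    simp only [mul_assoc]
  rw [e3, e1, e2]
  simp only [mul_add, add_mul, mul_one, one_mul, unitMap_mul,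
    unitMap_mul_of_ne i j i i h.symm, unitMap_mul_of_ne i j i j h.symm,
    unitMap_mul_of_ne j i j i h, unitMap_mul_of_ne i i j i h]
  have z1 : s * (η * s) = 0 := by linear_combination h2
  have z2 : η * s * -η = 0 := by linear_combination -h1
  have z3 : η * s * (η * s) = 0 := by linear_combination s * h1
  have z4 : s * -η = -(η * s) := by ring
  have z5 : η * -s = -(η * s) := by ring
  rw [z1, z2, z3, z4, z5, unitMap_zero, unitMap_zero, unitMap_zero]
  calc _ = (1 + unitMap i i (η * s) + unitMap j j (-(η * s))) +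
        (unitMap i j η + unitMap i j (-η)) + (unitMap j i s + unitMap j i (-s)) +
        (unitMap i i (η * s) + unitMap i i (-(η * s))) := by abel
    _ = _ := by rw [unitMap_cancel, unitMap_cancel, unitMap_cancel, add_zero, add_zero, add_zero]

lemma Q_mem_K2 (η s : R) (h1 : η * s * η = 0) (h2 : η * s * s = 0) : Q η s ∈ K2 R := by
  rw [mem_K2]
  ext1
  rw [Q, map_mul, map_mul, Units.val_mul, Units.val_mul, toGL_theta_val _ _ _ _ _ h1 h2,
    toGL_theta_val _ _ _ _ _ h1 h2, toGL_theta_val _ _ _ _ _ h1 h2, Units.val_one]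
  have z3 : η * s * -(η * s) = 0 := by linear_combination -s * h1
  have z4 : -(η * s) * (η * s) = 0 := by linear_combination -s * h1
  simp only [mul_add, add_mul, mul_one, one_mul, unitMap_mul, z3, z4, unitMap_zero,
    unitMap_mul_of_ne 0 0 1 1 (by decide), unitMap_mul_of_ne 0 0 2 2 (by decide),
    unitMap_mul_of_ne 2 2 1 1 (by decide), unitMap_mul_of_ne 2 2 0 0 (by decide),
    unitMap_mul_of_ne 1 1 2 2 (by decide), zero_mul]
  calc _ = 1 + (unitMap 0 0 (η * s) + unitMap 0 0 (-(η * s))) +
        (unitMap 1 1 (η * s) + unitMap 1 1 (-(η * s))) +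
        (unitMap 2 2 (η * s) + unitMap 2 2 (-(η * s))) := by abel
    _ = 1 := by rw [unitMap_cancel, unitMap_cancel, unitMap_cancel, add_zero, add_zero, add_zero]

end Pool.Agent.Lib.MP_51ebc3_al
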