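import Pool.Agent.Lib.MP_51ebc3_al.Defs

set_option autoImplicit false

/-!
# Commutators `[x_{ij}(η), x_{ji}(s)]` with small product
-/

open scoped commutatorElement

namespace Pool.Agent.Lib.MP_51ebc3_al

section group

variable {G : Type*} [Group G]

/-- The Hall–Witt identity. -/
lemma hall_witt (X Y Z : G) :
    (Y⁻¹ * ⁅⁅X⁻¹, Y⁆⁻¹, Z⁻¹⁆ * Y) * (Z⁻¹ * ⁅⁅Y⁻¹, Z⁆⁻¹, X⁻¹⁆ * Z) *
      (X⁻¹ * ⁅⁅Z⁻¹, X⁆⁻¹, Y⁻¹⁆ * X) = 1 := by
  simp only [commutatorElement_def]
  group

lemma conj_commutator (C A B : G) : C * ⁅A, B⁆ * C⁻¹ = ⁅C * A * C⁻¹, C * B * C⁻¹⁆ := by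
  simp only [commutatorElement_def]; group

/-- If `D = ⁅C, B⁆` commutes with `A`, `B` and `A` commutes with `C`, then `C` commutes
with `⁅A, B⁆`. -/
lemma commute_of_right {A B C D : G} (hAC : Commute A C) (hD : ⁅C, B⁆ = D) (hDA : Commute D A)
    (hDB : Commute D B) : Commute ⁅A, B⁆ C := by
  have h1 : C * B = D * B * C := by
    rw [← hD, commutatorElement_def]; group
  have h2 : C * A * C⁻¹ = A := by rw [← hAC.eq]; group
  have h3 : C * B * C⁻¹ = D * B := by rw [h1]; group
  have h4 : C * ⁅A, B⁆ * C⁻¹ = ⁅A, B⁆ := by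
    rw [conj_commutator, h2, h3, commutatorElement_def, commutatorElement_def, mul_inv_rev]
    have h5 : D * (A * B * A⁻¹ * B⁻¹) = (A * B * A⁻¹ * B⁻¹) * D :=
      (((hDA.mul_right hDB).mul_right hDA.inv_right).mul_right hDB.inv_right).eq
    calc A * (D * B) * A⁻¹ * (B⁻¹ * D⁻¹) = (A * D) * B * A⁻¹ * (B⁻¹ * D⁻¹) := by group
      _ = (D * A) * B * A⁻¹ * (B⁻¹ * D⁻¹) := by rw [hDA.eq]
      _ = D * (A * B * A⁻¹ * B⁻¹) * D⁻¹ := by group
      _ = (A * B * A⁻¹ * B⁻¹) * D * D⁻¹ := by rw [h5]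
      _ = A * B * A⁻¹ * B⁻¹ := by group
  exact (mul_inv_eq_iff_eq_mul.mp h4).symm

lemma commute_of_left {A B C D : G} (hBC : Commute B C) (hD : ⁅C, A⁆ = D) (hDA : Commute D A)
    (hDB : Commute D B) : Commute ⁅A, B⁆ C := by
  have h := commute_of_right hBC hD hDB hDA
  rw [← commutatorElement_inv] at h
  exact Commute.inv_left_iff.mp h

lemma conj_of_right {A B C D F : G} (hAC : Commute A C) (hD : ⁅C, B⁆ = D) (hF : ⁅D, A⁆ = F)
    (hBD : Commute B D) (hAF : Commute A F) (hBF : Commute B F) :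
    ⁅A, B⁆ * C * ⁅A, B⁆⁻¹ = F * C := by
  have h1 : B⁻¹ * C * B = D * C := by
    have : C * B = D * B * C := by rw [← hD, commutatorElement_def]; group
    rw [mul_assoc, this, ← hBD.eq]; group
  have h2 : A⁻¹ * D * A = F * D := by
    have : D * A = F * A * D := by rw [← hF, commutatorElement_def]; group
    rw [mul_assoc, this, ← hAF.eq]; group
  have h3 : A⁻¹ * C * A = C := by rw [mul_assoc, ← hAC.eq]; group
  have h4 : B * C * B⁻¹ = D⁻¹ * C := by
    have : C * B = D * B * C := by rw [← hD, commutatorElement_def]; group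
    have h5 : D⁻¹ * C * B = B * C := by rw [mul_assoc, this]; group
    rw [← h5]; group
  have h6 : B * D * B⁻¹ = D := by rw [hBD.eq]; group
  have h7 : B * F * B⁻¹ = F := by rw [hBF.eq]; group
  have h8 : A * F * A⁻¹ = F := by rw [hAF.eq]; group
  have h9 : A * C * A⁻¹ = C := by rw [hAC.eq]; group
  calc ⁅A, B⁆ * C * ⁅A, B⁆⁻¹ = A * (B * (A⁻¹ * (B⁻¹ * C * B) * A) * B⁻¹) * A⁻¹ := by
        rw [commutatorElement_def]; group
    _ = A * (B * (A⁻¹ * (D * C) * A) * B⁻¹) * A⁻¹ := by rw [h1]
    _ = A * (B * ((A⁻¹ * D * A) * (A⁻¹ * C * A)) * B⁻¹) * A⁻¹ := by group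
    _ = A * (B * ((F * D) * C) * B⁻¹) * A⁻¹ := by rw [h2, h3]
    _ = A * ((B * F * B⁻¹) * (B * D * B⁻¹) * (B * C * B⁻¹)) * A⁻¹ := by group
    _ = A * (F * D * (D⁻¹ * C)) * A⁻¹ := by rw [h4, h6, h7]
    _ = (A * F * A⁻¹) * (A * C * A⁻¹) := by group
    _ = F * C := by rw [h8, h9]

end group

section

variable {R : Type*} [CommRing R]

lemma x_zero (i j : ℕ) (h : i ≠ j) : x i j h (0 : R) = 1 := by
  have := x_mul i j h (0 : R) 0
  rw [add_zero] at this
  exact mul_eq_left.mp this

lemma x_neg (i j : ℕ) (h : i ≠ j) (a : R) : x i j h (-a) = (x i j h a)⁻¹ := by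
  rw [eq_inv_iff_mul_eq_one, x_mul, neg_add_cancel, x_zero]

lemma x_commute (i j k l : ℕ) (hij : i ≠ j) (hkl : k ≠ l) (hjk : j ≠ k) (hil : i ≠ l) (a b : R) :
    Commute (x i j hij a) (x k l hkl b) :=
  commutatorElement_eq_one_iff_commute.mp (x_comm i j k l hij hkl hjk hil a b)

lemma x_commute_of_mul_eq_zero (i j k : ℕ) (hij : i ≠ j) (hjk : j ≠ k) (hik : i ≠ k) (a b : R)
    (h : a * b = 0) : Commute (x i j hij a) (x j k hjk b) := by
  rw [← commutatorElement_eq_one_iff_commute, x_prod i j k hij hjk hik, h, x_zero]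

/-- The commutator `[x_{ij}(η), x_{ji}(s)]`. -/
noncomputable def theta (i j : ℕ) (h : i ≠ j) (η s : R) : St R :=
  ⁅x i j h η, x j i h.symm s⁆

lemma theta_comm₁ (p q r : ℕ) (hpq : p ≠ q) (hrq : r ≠ q) (hpr : p ≠ r) (η s b : R)
    (h : η * s * b = 0) : Commute (theta p q hpq η s) (x r q hrq b) := by
  refine commute_of_right (D := x r p hpr.symm (b * s)) ?_ (x_prod r q p hrq hpq.symm hpr.symm b s)
    ?_ ?_
  · exact x_commute p q r q hpq hrq hrq.symm hpq η b
  · exact x_commute_of_mul_eq_zero r p q hpr.symm hpq hrq _ _ (by linear_combination h)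
  · exact x_commute r p q p hpr.symm hpq.symm hpq hpr.symm _ _

lemma theta_comm₂ (p q r : ℕ) (hpq : p ≠ q) (hrq : r ≠ q) (hpr : p ≠ r) (η s b : R)
    (h : η * s * b = 0) : Commute (theta p q hpq η s) (x p r hpr b) := by
  refine commute_of_right (D := x q r hrq.symm (-(s * b))) ?_ ?_ ?_ ?_
  · exact x_commute p q p r hpq hpr hpq.symm hpr η b
  · rw [x_neg, ← x_prod q p r hpq.symm hpr hrq.symm s b, commutatorElement_inv]
  · exact (x_commute_of_mul_eq_zero p q r hpq hrq.symm hpr _ _ (by linear_combination -h)).symm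
  · exact x_commute q r q p hrq.symm hpq.symm hrq hpq.symm _ _

lemma theta_comm₃ (p q r : ℕ) (hpq : p ≠ q) (hrq : r ≠ q) (hpr : p ≠ r) (η s b : R)
    (h : η * s * b = 0) : Commute (theta p q hpq η s) (x r p hpr.symm b) := by
  refine commute_of_left (D := x r q hrq (b * η)) ?_ ?_ ?_ ?_
  · exact x_commute q p r p hpq.symm hpr.symm hpr hpq.symm s b
  · exact x_prod r p q hpr.symm hpq hrq b η
  · exact x_commute r q p q hrq hpq hpq.symm hrq _ _
  · exact x_commute_of_mul_eq_zero r q p hrq hpq.symm hpr.symm _ _ (by linear_combination h)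

lemma theta_comm₄ (p q r : ℕ) (hpq : p ≠ q) (hrq : r ≠ q) (hpr : p ≠ r) (η s b : R)
    (h : η * s * b = 0) : Commute (theta p q hpq η s) (x q r hrq.symm b) := by
  refine commute_of_left (D := x p r hpr (-(η * b))) ?_ ?_ ?_ ?_
  · exact x_commute q p q r hpq.symm hrq.symm hpq hrq.symm s b
  · rw [x_neg, ← x_prod p q r hpq hrq.symm hpr η b, commutatorElement_inv]
  · exact x_commute p r p q hpr hpq hpr.symm hpq _ _
  · exact (x_commute_of_mul_eq_zero q p r hpq.symm hpr hrq.symm _ _
      (by linear_combination -h)).symm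

lemma exists_third (p q : ℕ) : ∃ r, r ≠ q ∧ p ≠ r :=
  ⟨p + q + 1, by omega, by omega⟩

lemma theta_comm₅ (p q : ℕ) (hpq : p ≠ q) (η s b : R)
    (hs : η * s * s = 0) (h : η * s * b = 0) : Commute (theta p q hpq η s) (x p q hpq b) := by
  obtain ⟨r, hrq, hpr⟩ := exists_third p q
  have h1 : theta p q hpq η s * x r q hrq 1 * (theta p q hpq η s)⁻¹ =
      x r q hrq (1 * s * η) * x r q hrq 1 := by
    refine conj_of_right (D := x r p hpr.symm (1 * s)) ?_ ?_ ?_ ?_ ?_ ?_
    · exact x_commute p q r q hpq hrq hrq.symm hpq η 1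
    · exact x_prod r q p hrq hpq.symm hpr.symm 1 s
    · exact x_prod r p q hpr.symm hpq hrq _ _
    · exact x_commute q p r p hpq.symm hpr.symm hpr hpq.symm _ _
    · exact x_commute p q r q hpq hrq hrq.symm hpq _ _
    · exact (x_commute_of_mul_eq_zero r q p hrq hpq.symm hpr.symm _ _
        (by linear_combination hs)).symm
  have h2 := theta_comm₂ p q r hpq hrq hpr η s b h
  have h3 : theta p q hpq η s * x p r hpr b * (theta p q hpq η s)⁻¹ = x p r hpr b := by
    rw [h2.eq]; group
  have h4 : x p q hpq b = ⁅x p r hpr b, x r q hrq 1⁆ := by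
    rw [x_prod p r q hpr hrq hpq, mul_one]
  have h5 : theta p q hpq η s * x p q hpq b * (theta p q hpq η s)⁻¹ = x p q hpq b := by
    rw [h4, conj_commutator, h1, h3, x_mul, x_prod p r q hpr hrq hpq, x_prod p r q hpr hrq hpq]
    congr 1
    linear_combination h
  exact mul_inv_eq_iff_eq_mul.mp h5

lemma theta_symm (p q : ℕ) (hpq : p ≠ q) (η s : R) :
    theta p q hpq η s = (theta q p hpq.symm s η)⁻¹ := by
  rw [theta, theta, commutatorElement_inv]

lemma theta_comm₆ (p q : ℕ) (hpq : p ≠ q) (η s b : R)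
    (hη : η * s * η = 0) (h : η * s * b = 0) :
    Commute (theta p q hpq η s) (x q p hpq.symm b) := by
  rw [theta_symm]
  refine Commute.inv_left ?_
  exact theta_comm₅ q p hpq.symm s η b (by linear_combination hη) (by linear_combination h)

/-- `θ_{pq}(η, s)` commutes with every `x_{kl}(b)` such that `η s b = 0`. -/
lemma theta_comm (p q k l : ℕ) (hpq : p ≠ q) (hkl : k ≠ l) (η s b : R)
    (hη : η * s * η = 0) (hs : η * s * s = 0) (h : η * s * b = 0) :
    Commute (theta p q hpq η s) (x k l hkl b) := by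
  by_cases hkp : k = p
  · subst hkp
    by_cases hlq : l = q
    · subst hlq
      exact theta_comm₅ k l hpq η s b hs h
    · exact theta_comm₂ k q l hpq hlq hkl η s b h
  by_cases hkq : k = q
  · subst hkq
    by_cases hlp : l = p
    · subst hlp
      exact theta_comm₆ l k hpq η s b hη h
    · exact theta_comm₄ p k l hpq hkl.symm (Ne.symm hlp) η s b h
  by_cases hlp : l = p
  · subst hlp
    exact theta_comm₃ l q k hpq hkq (Ne.symm hkp) η s b h
  by_cases hlq : l = q
  · subst hlq
    exact theta_comm₁ p l k hpq hkq (Ne.symm hkp) η s b h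
  have h1 : Commute (x p q hpq η) (x k l hkl b) :=
    x_commute p q k l hpq hkl (Ne.symm hkq) (Ne.symm hlp) _ _
  have h2 : Commute (x q p hpq.symm s) (x k l hkl b) :=
    x_commute q p k l hpq.symm hkl (Ne.symm hkp) (Ne.symm hlq) _ _
  rw [theta, commutatorElement_def]
  exact ((h1.mul_left h2).mul_left h1.inv_left).mul_left h2.inv_left

lemma theta_commute_theta (p q k l : ℕ) (hpq : p ≠ q) (hkl : k ≠ l) (η s η' s' : R)
    (hη : η * s * η = 0) (hs : η * s * s = 0) (h : η * s * η' = 0) (h' : η * s * s' = 0) :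
    Commute (theta p q hpq η s) (theta k l hkl η' s') := by
  have h1 := theta_comm p q k l hpq hkl η s η' hη hs h
  have h2 := theta_comm p q l k hpq hkl.symm η s s' hη hs h'
  have h3 : theta k l hkl η' s' = x k l hkl η' * x l k hkl.symm s' * (x k l hkl η')⁻¹ *
      (x l k hkl.symm s')⁻¹ := rfl
  rw [h3]
  exact ((h1.mul_right h2).mul_right h1.inv_right).mul_right h2.inv_right

/-- Additivity in the first variable. -/
lemma theta_add_left (p q : ℕ) (hpq : p ≠ q) (η η' s : R) (h1 : η' * s * η' = 0)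
    (h2 : η' * s * s = 0) (h3 : η' * s * η = 0) :
    theta p q hpq (η + η') s = theta p q hpq η' s * theta p q hpq η s := by
  have h := (theta_comm p q p q hpq hpq η' s η h1 h2 h3).eq
  have h4 : theta p q hpq (η + η') s =
      x p q hpq η * theta p q hpq η' s * (x p q hpq η)⁻¹ * theta p q hpq η s := by
    simp only [theta, commutatorElement_def, ← x_mul]
    group
  rw [h4, ← h]
  group

/-- Additivity in the second variable. -/
lemma theta_add_right (p q : ℕ) (hpq : p ≠ q) (η s s' : R) (h1 : η * s' * η = 0)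
    (h2 : η * s' * s' = 0) (h3 : η * s' * s = 0) :
    theta p q hpq η (s + s') = theta p q hpq η s * theta p q hpq η s' := by
  have h := (theta_comm p q q p hpq hpq.symm η s' s h1 h2 h3).eq
  have h4 : theta p q hpq η (s + s') =
      theta p q hpq η s * (x q p hpq.symm s * theta p q hpq η s' * (x q p hpq.symm s)⁻¹) := by
    simp only [theta, commutatorElement_def, ← x_mul]
    group
  rw [h4, ← h]
  group

lemma theta_zero_left (p q : ℕ) (hpq : p ≠ q) (s : R) : theta p q hpq 0 s = 1 := by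
  rw [theta, x_zero, commutatorElement_one_left]

lemma theta_zero_right (p q : ℕ) (hpq : p ≠ q) (η : R) : theta p q hpq η 0 = 1 := by
  rw [theta, x_zero, commutatorElement_one_right]

lemma theta_nsmul_left (p q : ℕ) (hpq : p ≠ q) (η s : R) (h1 : η * s * η = 0)
    (h2 : η * s * s = 0) (n : ℕ) :
    theta p q hpq (n * η) s = theta p q hpq η s ^ n := by
  induction n with
  | zero => rw [Nat.cast_zero, zero_mul, theta_zero_left, pow_zero]
  | succ n ih =>
    rw [Nat.cast_succ, add_mul, one_mul,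
      theta_add_left p q hpq _ _ _ h1 h2 (by linear_combination (n : R) * h1), ih, pow_succ']

lemma theta_nsmul_right (p q : ℕ) (hpq : p ≠ q) (η s : R) (h1 : η * s * η = 0)
    (h2 : η * s * s = 0) (n : ℕ) :
    theta p q hpq η (n * s) = theta p q hpq η s ^ n := by
  induction n with
  | zero => rw [Nat.cast_zero, zero_mul, theta_zero_right, pow_zero]
  | succ n ih =>
    rw [Nat.cast_succ, add_mul, one_mul,
      theta_add_right p q hpq _ _ _ h1 h2 (by linear_combination (n : R) * h2), ih, pow_succ]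

/-- The three-term relation (Hall–Witt). -/
lemma theta_three (i j k : ℕ) (hij : i ≠ j) (hjk : j ≠ k) (hik : i ≠ k) (a b c : R)
    (ha : a * b * c * a = 0) (hb : a * b * c * b = 0) (hc : a * b * c * c = 0) :
    theta i k hik (a * b) (-c) * theta j i hij.symm (b * c) (-a) *
      theta k j hjk.symm (c * a) (-b) = 1 := by
  have h := hall_witt (x i j hij a) (x j k hjk b) (x k i hik.symm c)
  rw [← x_neg, ← x_neg, ← x_neg, x_prod i j k hij hjk hik, x_prod j k i hjk hik.symm hij.symm,
    x_prod k i j hik.symm hij hjk.symm, ← x_neg, ← x_neg, ← x_neg] at h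
  have e1 : -(-a * b) = a * b := by ring
  have e2 : -(-b * c) = b * c := by ring
  have e3 : -(-c * a) = c * a := by ring
  rw [e1, e2, e3] at h
  change x j k hjk (-b) * theta i k hik (a * b) (-c) * x j k hjk b *
    (x k i hik.symm (-c) * theta j i hij.symm (b * c) (-a) * x k i hik.symm c) *
    (x i j hij (-a) * theta k j hjk.symm (c * a) (-b) * x i j hij a) = 1 at h
  have c1 := theta_comm i k j k hik hjk (a * b) (-c) b (by linear_combination -b * ha)
    (by linear_combination hc) (by linear_combination -hb)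
  have c2 := theta_comm j i k i hij.symm hik.symm (b * c) (-a) c (by linear_combination -c * hb)
    (by linear_combination ha) (by linear_combination -hc)
  have c3 := theta_comm k j i j hjk.symm hij (c * a) (-b) a (by linear_combination -a * hc)
    (by linear_combination hb) (by linear_combination -ha)
  rw [mul_assoc (x j k hjk (-b)), c1.eq, mul_assoc (x k i hik.symm (-c)), c2.eq,
    mul_assoc (x i j hij (-a)), c3.eq, x_neg, x_neg, x_neg, inv_mul_cancel_left,
    inv_mul_cancel_left, inv_mul_cancel_left] at h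
  exact h

end

end Pool.Agent.Lib.MP_51ebc3_al
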