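import Pool.Agent.Lib.MP_51ebc3_al.Theta

set_option autoImplicit false

/-!
# The elements `Q(η, s)` and their vanishing
-/

open scoped commutatorElement

namespace Pool.Agent.Lib.MP_51ebc3_al

variable {R : Type*} [CommRing R]

/-- The product `θ₀₂(η, s) θ₁₀(η, s) θ₂₁(η, s)`. -/
noncomputable def Q (η s : R) : St R :=
  theta 0 2 (by decide) η s * theta 1 0 (by decide) η s * theta 2 1 (by decide) η s

lemma map_theta {S : Type*} [CommRing S] (f : R →+* S) (i j : ℕ) (h : i ≠ j) (η s : R) :
    St.map f (theta i j h η s) = theta i j h (f η) (f s) := by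
  rw [theta, theta, map_commutatorElement, St.map_x, St.map_x]

lemma map_Q {S : Type*} [CommRing S] (f : R →+* S) (η s : R) :
    St.map f (Q η s) = Q (f η) (f s) := by
  rw [Q, Q, map_mul, map_mul, map_theta, map_theta, map_theta]

/-- If `N η = x²`, `x⁴ = 0` and `N` is invertible, then `Q(η, -x) = 1`. -/
lemma Q_eq_one (N : ℕ) (hN : IsUnit (N : R)) (η x : R) (hη : (N : R) * η = x * x)
    (hx : x ^ 4 = 0) : Q η (-x) = 1 := by
  obtain ⟨t, ht⟩ := hN.exists_left_inv
  have h1 := theta_three 0 1 2 (by decide) (by decide) (by decide) (t * x) x x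
    (by linear_combination t ^ 2 * hx) (by linear_combination t * hx)
    (by linear_combination t * hx)
  have e1 : t * x * x = η := by linear_combination η * ht - t * hη
  have e2 : x * (t * x) = η := by linear_combination e1
  have e3 : x * x = N * η := by linear_combination -hη
  have hη2 : x * x * η = 0 := by
    have : x * x * η = t * x ^ 4 := by
      linear_combination -(x * x) * e1
    rw [this, hx, mul_zero]
  have hηη : η * x * η = 0 := by
    have : η * x * η = t * x * (x * x * η) := by
      linear_combination -(x * η) * e1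
    rw [this, hη2, mul_zero]
  rw [e1, e2, e3] at h1
  have e4 : theta 1 0 (by decide) (N * η) (-(t * x)) = theta 1 0 (by decide) η (-x) := by
    have k1 : η * -(t * x) * η = 0 := by linear_combination -t * hηη
    have k2 : η * -(t * x) * -(t * x) = 0 := by linear_combination t ^ 2 * hη2
    rw [theta_nsmul_left 1 0 (by decide) η (-(t * x)) k1 k2,
      ← theta_nsmul_right 1 0 (by decide) η (-(t * x)) k1 k2]
    congr 1
    linear_combination -x * ht
  rw [e4] at h1
  exact h1

section comm

variable {G : Type*} [Group G]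

/-- Rearrangement of a product of nine pairwise commuting elements. -/
lemma regroup (a b c : Fin 3 → G)
    (hab : ∀ i j, Commute (a i) (b j)) (hac : ∀ i j, Commute (a i) (c j))
    (hbc : ∀ i j, Commute (b i) (c j)) (haa : ∀ i j, Commute (a i) (a j))
    (hbb : ∀ i j, Commute (b i) (b j)) (hcc : ∀ i j, Commute (c i) (c j)) :
    (a 0 * b 0 * c 0) * (a 1 * b 1 * c 1) * (a 2 * b 2 * c 2) =
      (a 2 * b 0 * c 1) * (a 0 * b 1 * c 2) * (a 1 * b 2 * c 0) := by
  let k : Set G := Set.range a ∪ Set.range b ∪ Set.range c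
  have hk : ∀ g ∈ k, ∀ h ∈ k, g * h = h * g := by
    rintro g ((⟨i, rfl⟩ | ⟨i, rfl⟩) | ⟨i, rfl⟩) h ((⟨j, rfl⟩ | ⟨j, rfl⟩) | ⟨j, rfl⟩)
    · exact haa i j
    · exact hab i j
    · exact hac i j
    · exact (hab j i).symm
    · exact hbb i j
    · exact hbc i j
    · exact (hac j i).symm
    · exact (hbc j i).symm
    · exact hcc i j
  have hcm := Subgroup.isMulCommutative_closure hk
  have ka : ∀ i, a i ∈ Subgroup.closure k := fun i =>
    Subgroup.subset_closure (Or.inl (Or.inl ⟨i, rfl⟩))
  have kb : ∀ i, b i ∈ Subgroup.closure k := fun i =>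
    Subgroup.subset_closure (Or.inl (Or.inr ⟨i, rfl⟩))
  have kc : ∀ i, c i ∈ Subgroup.closure k := fun i =>
    Subgroup.subset_closure (Or.inr ⟨i, rfl⟩)
  let a' : Fin 3 → Subgroup.closure k := fun i => ⟨a i, ka i⟩
  let b' : Fin 3 → Subgroup.closure k := fun i => ⟨b i, kb i⟩
  let c' : Fin 3 → Subgroup.closure k := fun i => ⟨c i, kc i⟩
  have h : (a' 0 * b' 0 * c' 0) * (a' 1 * b' 1 * c' 1) * (a' 2 * b' 2 * c' 2) =
      (a' 2 * b' 0 * c' 1) * (a' 0 * b' 1 * c' 2) * (a' 1 * b' 2 * c' 0) := by
    have hmc : ∀ g h : Subgroup.closure k, g * h = h * g := hcm.is_comm.comm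
    let _ : CommGroup (Subgroup.closure k) := { (inferInstance : Group (Subgroup.closure k)) with
      mul_comm := hmc }
    simp only [mul_comm, mul_left_comm, mul_assoc]
  exact congrArg Subtype.val h

end comm

/-- The vanishing of `Q(n yz, -x) Q(n xz, -y) Q(n xy, -z)` for natural numbers `n`. -/
lemma Q_prod_eq_one (n : ℕ) (x y z : R) (hx : x * y * z * x = 0) (hy : x * y * z * y = 0)
    (hz : x * y * z * z = 0) :
    Q (n * (y * z)) (-x) * Q (n * (x * z)) (-y) * Q (n * (x * y)) (-z) = 1 := by
  let e : Fin 3 → R := ![y * z, x * z, x * y]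
  let v : Fin 3 → R := ![-x, -y, -z]
  have hw : ∀ i, e i * v i = -(x * y * z) := by
    intro i
    fin_cases i
    · change y * z * -x = _; ring
    · change x * z * -y = _; ring
    · change x * y * -z = _; ring
  have he : ∀ i j, e i * v i * e j = 0 := by
    intro i j
    rw [hw]
    fin_cases j
    · change -(x * y * z) * (y * z) = 0; linear_combination -z * hy
    · change -(x * y * z) * (x * z) = 0; linear_combination -z * hx
    · change -(x * y * z) * (x * y) = 0; linear_combination -y * hx
  have hv : ∀ i j, e i * v i * v j = 0 := by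
    intro i j
    rw [hw]
    fin_cases j
    · change -(x * y * z) * -x = 0; linear_combination hx
    · change -(x * y * z) * -y = 0; linear_combination hy
    · change -(x * y * z) * -z = 0; linear_combination hz
  have hc : ∀ (p q k l : ℕ) (hpq : p ≠ q) (hkl : k ≠ l) (i j : Fin 3),
      Commute (theta p q hpq (e i) (v i)) (theta k l hkl (e j) (v j)) := fun p q k l hpq hkl i j =>
    theta_commute_theta p q k l hpq hkl _ _ _ _ (he i i) (hv i i) (he i j) (hv i j)
  have hpow : ∀ (p q : ℕ) (hpq : p ≠ q) (i : Fin 3),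
      theta p q hpq (n * e i) (v i) = theta p q hpq (e i) (v i) ^ n := fun p q hpq i =>
    theta_nsmul_left p q hpq _ _ (he i i) (hv i i) n
  have hQ : ∀ i, Q (n * e i) (v i) = theta 0 2 (by decide) (e i) (v i) ^ n *
      theta 1 0 (by decide) (e i) (v i) ^ n * theta 2 1 (by decide) (e i) (v i) ^ n := by
    intro i
    rw [Q, hpow, hpow, hpow]
  have hr := regroup (fun i => theta 0 2 (by decide) (e i) (v i) ^ n)
    (fun i => theta 1 0 (by decide) (e i) (v i) ^ n)
    (fun i => theta 2 1 (by decide) (e i) (v i) ^ n)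
    (fun i j => (hc 0 2 1 0 (by decide) (by decide) i j).pow_pow n n)
    (fun i j => (hc 0 2 2 1 (by decide) (by decide) i j).pow_pow n n)
    (fun i j => (hc 1 0 2 1 (by decide) (by decide) i j).pow_pow n n)
    (fun i j => (hc 0 2 0 2 (by decide) (by decide) i j).pow_pow n n)
    (fun i j => (hc 1 0 1 0 (by decide) (by decide) i j).pow_pow n n)
    (fun i j => (hc 2 1 2 1 (by decide) (by decide) i j).pow_pow n n)
  have hT : ∀ i j k : Fin 3,
      theta 0 2 (by decide) (e i) (v i) * theta 1 0 (by decide) (e j) (v j) *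
        theta 2 1 (by decide) (e k) (v k) = 1 →
      theta 0 2 (by decide) (e i) (v i) ^ n * theta 1 0 (by decide) (e j) (v j) ^ n *
        theta 2 1 (by decide) (e k) (v k) ^ n = 1 := by
    intro i j k h
    rw [← (hc 0 2 1 0 (by decide) (by decide) i j).mul_pow,
      ← ((hc 0 2 2 1 (by decide) (by decide) i k).mul_left
        (hc 1 0 2 1 (by decide) (by decide) j k)).mul_pow, h, one_pow]
  have t1 := theta_three 0 1 2 (by decide) (by decide) (by decide) x y z hx hy hz
  have t2 := theta_three 0 1 2 (by decide) (by decide) (by decide) y z x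
    (by linear_combination hy) (by linear_combination hz) (by linear_combination hx)
  have t3 := theta_three 0 1 2 (by decide) (by decide) (by decide) z x y
    (by linear_combination hz) (by linear_combination hx) (by linear_combination hy)
  rw [mul_comm z x] at t1 t2 t3
  change Q (n * e 0) (v 0) * Q (n * e 1) (v 1) * Q (n * e 2) (v 2) = 1
  rw [hQ, hQ, hQ]
  rw [hr, hT 2 0 1 t1, hT 0 1 2 t2, hT 1 2 0 t3, one_mul, one_mul]

end Pool.Agent.Lib.MP_51ebc3_al
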